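import Pool.Agent.Q72.SM.Stm2

set_option autoImplicit false

namespace Pool.Agent.Q72.SM

open Set Filter Topology MeasureTheory Complex

lemma area_real (a g : ℝ) (ha : 0 < a) (hg : 0 < g) (t : ℝ) (ht : 0 ≤ t) :
    ∫ w : ℂ, indicator {w : ℂ | ‖w‖ < t ∧ a * Real.exp (g * w.re) ≤ 1}
      (fun w => (a * g * Real.exp (g * w.re)) ^ 2) w ≤ g * t := by
  set x0 : ℝ := -Real.log a / g with hx0
  set f : ℝ → ℝ := indicator (Iic x0) (fun x => (a * g) ^ 2 * Real.exp (2 * g * x)) with hf
  set k : ℝ → ℝ := indicator (Ioo (-t) t) (fun _ => (1 : ℝ)) with hk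
  have hfi : Integrable f := by
    rw [hf, integrable_indicator_iff measurableSet_Iic]
    exact (integrableOn_exp_mul_Iic (by positivity : (0 : ℝ) < 2 * g) x0).const_mul _
  have hki : Integrable k := by
    rw [hk, integrable_indicator_iff measurableSet_Ioo]
    simp [integrableOn_const_iff]
  have hprod : Integrable (fun q : ℝ × ℝ => f q.1 * k q.2) := hfi.mul_prod hki
  have hval : ∫ q : ℝ × ℝ, f q.1 * k q.2 = g * t := by
    have h1 := integral_prod_mul (μ := (volume : Measure ℝ)) (ν := (volume : Measure ℝ)) f k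
    have h2 : ∫ x, f x = g / 2 := by
      rw [hf, integral_indicator measurableSet_Iic, integral_const_mul,
        integral_exp_mul_Iic (by positivity : (0 : ℝ) < 2 * g)]
      have : Real.exp (2 * g * x0) = (a ^ 2)⁻¹ := by
        have h3 : 2 * g * x0 = -(2 * Real.log a) := by
          rw [hx0]; field_simp
        rw [h3, Real.exp_neg, two_mul, Real.exp_add, Real.exp_log ha, ← sq]
      rw [this]
      field_simp
    have h3 : ∫ y, k y = 2 * t := by
      rw [hk, integral_indicator measurableSet_Ioo]
      simp only [integral_const, MeasurableSet.univ, measureReal_restrict_apply, univ_inter,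
        smul_eq_mul, mul_one]
      rw [Real.volume_real_Ioo_of_le (by linarith)]
      ring
    have h4 : (∫ q : ℝ × ℝ, f q.1 * k q.2) = (∫ x, f x) * ∫ y, k y := h1
    rw [h4, h2, h3]; ring
  rw [← hval, ← Complex.volume_preserving_equiv_real_prod.integral_comp
    Complex.measurableEquivRealProd.measurableEmbedding]
  refine integral_mono_of_nonneg ?_ ?_ ?_
  · refine Eventually.of_forall fun w => ?_
    apply indicator_nonneg
    intro w _; positivity
  · exact (Complex.volume_preserving_equiv_real_prod.integrable_comp_emb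
      Complex.measurableEquivRealProd.measurableEmbedding).2 hprod
  · refine Eventually.of_forall fun w => ?_
    by_cases hw : w ∈ {w : ℂ | ‖w‖ < t ∧ a * Real.exp (g * w.re) ≤ 1}
    · obtain ⟨h1, h2⟩ := hw
      have hx : w.re ≤ x0 := by
        rw [hx0, le_div_iff₀ hg]
        have h3 : Real.log (a * Real.exp (g * w.re)) ≤ 0 :=
          Real.log_nonpos (by positivity) h2
        rw [Real.log_mul ha.ne' (Real.exp_ne_zero _), Real.log_exp] at h3
        nlinarith
      have hy : w.im ∈ Ioo (-t) t := by
        have := Complex.abs_im_le_norm w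
        exact abs_lt.1 (lt_of_le_of_lt this h1)
      have e1 : f w.re = (a * g) ^ 2 * Real.exp (2 * g * w.re) := by
        rw [hf, indicator_of_mem (by exact hx)]
      have e2 : k w.im = 1 := by
        rw [hk, indicator_of_mem hy]
      change indicator _ _ w ≤ f w.re * k w.im
      rw [indicator_of_mem (show w ∈ {w : ℂ | ‖w‖ < t ∧ a * Real.exp (g * w.re) ≤ 1} from
        ⟨h1, h2⟩), e1, e2, mul_one]
      apply le_of_eq
      have : 2 * g * w.re = g * w.re + g * w.re := by ring
      rw [this, Real.exp_add]; ring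
    · change indicator _ _ w ≤ f w.re * k w.im
      rw [indicator_of_notMem hw]
      refine mul_nonneg ?_ ?_
      · exact indicator_nonneg (fun x _ => by positivity) _
      · exact indicator_nonneg (fun x _ => by positivity) _

theorem area1 : S_AREA1 := by
  intro α γ hγ
  refine ⟨‖γ‖, norm_nonneg _, fun t ht => ?_⟩
  rcases eq_or_ne α 0 with hα | hα
  · simp only [hα, zero_mul, norm_zero]
    simp
    positivity
  set a := ‖α‖ with ha
  set g := ‖γ‖ with hg
  have ha0 : 0 < a := norm_pos_iff.2 hα
  have hg0 : 0 < g := norm_pos_iff.2 hγ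
  -- the rotation
  have hc : ‖γ / g‖ = 1 := by
    rw [norm_div, Complex.norm_real, Real.norm_of_nonneg hg0.le, ← hg, div_self hg0.ne']
  let c : Circle := ⟨γ / g, mem_sphere_zero_iff_norm.2 hc⟩
  have hrot : MeasurePreserving (rotation c) := (rotation c).measurePreserving
  have hemb : MeasurableEmbedding (rotation c) :=
    (rotation c).toHomeomorph.measurableEmbedding
  have hms : MeasurableSet (Metric.ball (0 : ℂ) t ∩ {z | ‖α * exp (γ * z)‖ ≤ 1}) := by
    refine Metric.isOpen_ball.measurableSet.inter ?_
    refine (isClosed_le ?_ continuous_const).measurableSet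
    fun_prop
  rw [← integral_indicator hms]
  have key : ∀ z : ℂ, indicator (Metric.ball (0 : ℂ) t ∩ {z | ‖α * exp (γ * z)‖ ≤ 1})
      (fun z => ‖α * γ * exp (γ * z)‖ ^ 2) z =
      indicator {w : ℂ | ‖w‖ < t ∧ a * Real.exp (g * w.re) ≤ 1}
      (fun w => (a * g * Real.exp (g * w.re)) ^ 2) (rotation c z) := by
    intro z
    have h1 : rotation c z = (γ / g) * z := rfl
    have h2 : ‖rotation c z‖ = ‖z‖ := LinearIsometryEquiv.norm_map _ _
    have h3 : g * (rotation c z).re = (γ * z).re := by
      rw [h1]
      have hgc : (g : ℂ) ≠ 0 := by exact_mod_cast hg0.ne'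
      have : (γ * z) = (g : ℂ) * (γ / g * z) := by
        field_simp
      rw [this, Complex.re_ofReal_mul]
    have h4 : ‖exp (γ * z)‖ = Real.exp (g * (rotation c z).re) := by
      rw [Complex.norm_exp, h3]
    by_cases hz : z ∈ Metric.ball (0 : ℂ) t ∩ {z | ‖α * exp (γ * z)‖ ≤ 1}
    · rw [indicator_of_mem hz, indicator_of_mem]
      · rw [norm_mul, norm_mul, h4]
      · obtain ⟨k1, k2⟩ := hz
        refine ⟨?_, ?_⟩
        · rw [h2]; simpa using k1
        · have k3 : ‖α * exp (γ * z)‖ ≤ 1 := k2
          rw [norm_mul, h4] at k3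
          exact k3
    · rw [indicator_of_notMem hz, indicator_of_notMem]
      rintro ⟨k1, k2⟩
      apply hz
      refine ⟨?_, ?_⟩
      · rw [h2] at k1; simpa using k1
      · change ‖α * exp (γ * z)‖ ≤ 1
        rw [norm_mul, h4]; exact k2
  simp_rw [key]
  rw [hrot.integral_comp hemb]
  exact area_real a g ha0 hg0 t ht

end Pool.Agent.Q72.SM
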