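import Mathlib

/-!
# Directed manifolds of rank two and their projectivizations (Demailly–Semple tower)

A compact complex manifold is given by a finite atlas: injective maps `φ i : E → Pt` (the inverses of
the charts; all charts are onto the model space `E`), whose images cover `Pt`, with open overlaps and
holomorphic transition maps, and Hausdorff for the topology for which the `φ i` are homeomorphisms
onto open sets.  It is compact because the images of the closed unit ball of `E` cover it.

A holomorphic subbundle `V` of rank two of the tangent bundle is given by a holomorphic frame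
`e i false, e i true` in every chart, such that the differentials of the transition maps send the
frames to holomorphic combinations of the frames.

The projectivization `P(V)` of the directed manifold `(X, V)` is the manifold of pairs `(x, ℓ)` with
`ℓ` a line in `V_x`, with the subbundle `V'` of all tangent vectors which are mapped into `ℓ`
by the differential of the projection.
-/

set_option autoImplicit false

namespace Pool.Agent.Q72.SM

open Set Filter Topology

/-- A compact complex manifold modelled on `E`, presented by finitely many maps `φ i : E → Pt`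
(inverses of charts). -/
structure CMfd (E : Type) [NormedAddCommGroup E] [NormedSpace ℂ E] where
  /-- the points of the manifold -/
  Pt : Type
  /-- the set of indices of the charts -/
  ι : Type
  /-- the inverses of the charts -/
  φ : ι → E → Pt
  finite : Finite ι
  inj : ∀ i, Function.Injective (φ i)
  cover : ∀ x, ∃ i u, ‖u‖ ≤ 1 ∧ φ i u = x
  isOpen_overlap : ∀ i j, IsOpen {u | φ i u ∈ range (φ j)}
  analytic : ∀ i j, AnalyticOnNhd ℂ (fun u => Function.invFun (φ j) (φ i u))
    {u | φ i u ∈ range (φ j)}
  t2 : @T2Space Pt (⨆ i, TopologicalSpace.coinduced (φ i) inferInstance)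

namespace CMfd

variable {E : Type} [NormedAddCommGroup E] [NormedSpace ℂ E] (X : CMfd E)

/-- the topology of the manifold: a set is open if and only if its preimages under all `φ i` are
open -/
instance : TopologicalSpace X.Pt := ⨆ i, TopologicalSpace.coinduced (X.φ i) inferInstance

instance : T2Space X.Pt := X.t2

/-- the Borel sigma algebra -/
instance : MeasurableSpace X.Pt := borel X.Pt

instance : BorelSpace X.Pt := ⟨rfl⟩

/-- the points of the chart `i` which are in the chart `j` -/
def dom (i j : X.ι) : Set E := {u | X.φ i u ∈ range (X.φ j)}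

/-- the transition map from the chart `i` to the chart `j` -/
noncomputable def tr (i j : X.ι) (u : E) : E := Function.invFun (X.φ j) (X.φ i u)

/-- a chart around the point `x` -/
noncomputable def ch (x : X.Pt) : X.ι := (X.cover x).choose

/-- the coordinate of the point `x` in the chart `X.ch x` -/
noncomputable def co (x : X.Pt) : E := Function.invFun (X.φ (X.ch x)) x

/-- Tangent vectors at `x` are given by their coordinates in the chart `X.ch x`;
`X.push i u v` is the tangent vector at the point `φ i u` with coordinates `v` in the chart `i`. -/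
noncomputable def push (i : X.ι) (u : E) : E →L[ℂ] E := fderiv ℂ (X.tr i (X.ch (X.φ i u))) u

end CMfd

/-- A directed manifold `(X, V)`: a compact complex manifold with a holomorphic subbundle `V` of
rank two of its tangent bundle. -/
structure Dir (E : Type) [NormedAddCommGroup E] [NormedSpace ℂ E] extends CMfd E where
  /-- the holomorphic frame of `V` in the chart `i` -/
  e : ι → Bool → E → E
  e_analytic : ∀ i a, AnalyticOnNhd ℂ (e i a) univ
  indep : ∀ i u (α β : ℂ), α • e i false u + β • e i true u = 0 → α = 0 ∧ β = 0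
  /-- the matrix of the differential of the transition map on `V` -/
  A : ι → ι → Bool → Bool → E → ℂ
  A_analytic : ∀ i j a b, AnalyticOnNhd ℂ (A i j a b) (toCMfd.dom i j)
  frame : ∀ i j, ∀ u ∈ toCMfd.dom i j, ∀ a, fderiv ℂ (toCMfd.tr i j) u (e i a u) =
    A i j a false u • e j false (toCMfd.tr i j u) + A i j a true u • e j true (toCMfd.tr i j u)

section basic

variable {E : Type} [NormedAddCommGroup E] [NormedSpace ℂ E] (X : CMfd E)

namespace CMfd

lemma φ_tr (i j : X.ι) {u : E} (hu : u ∈ X.dom i j) : X.φ j (X.tr i j u) = X.φ i u := by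
  obtain ⟨v, hv⟩ := hu
  have : Function.invFun (X.φ j) (X.φ i u) = v := by
    rw [← hv]; exact Function.leftInverse_invFun (X.inj j) v
  rw [tr, this, hv]

lemma tr_eq (i j : X.ι) {u v : E} (h : X.φ j v = X.φ i u) : X.tr i j u = v := by
  rw [tr, ← h]; exact Function.leftInverse_invFun (X.inj j) v

lemma mem_dom {i j : X.ι} {u v : E} (h : X.φ j v = X.φ i u) : u ∈ X.dom i j := ⟨v, h⟩

lemma φ_co (x : X.Pt) : X.φ (X.ch x) (X.co x) = x := by
  obtain ⟨u, -, hu⟩ := (X.cover x).choose_spec
  have : X.co x = u := by
    have h := Function.leftInverse_invFun (X.inj (X.ch x)) u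
    have h2 : X.φ (X.ch x) u = x := hu
    rw [h2] at h
    exact h
  rw [this]; exact hu

lemma mem_dom_ch (i : X.ι) (u : E) : u ∈ X.dom i (X.ch (X.φ i u)) :=
  ⟨X.co (X.φ i u), X.φ_co _⟩

lemma tr_mem (i j : X.ι) {u : E} (hu : u ∈ X.dom i j) : X.tr i j u ∈ X.dom j i :=
  ⟨u, (X.φ_tr i j hu).symm⟩

lemma tr_tr (i j k : X.ι) {u : E} (hj : u ∈ X.dom i j) : X.tr j k (X.tr i j u) = X.tr i k u := by
  rw [tr, X.φ_tr i j hj]; rfl

lemma tr_self (i : X.ι) (u : E) : X.tr i i u = u := X.tr_eq i i rfl

lemma isOpen_dom (i j : X.ι) : IsOpen (X.dom i j) := X.isOpen_overlap i j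

lemma tr_analytic (i j : X.ι) : AnalyticOnNhd ℂ (X.tr i j) (X.dom i j) := X.analytic i j

/-- the chain rule for transition maps -/
lemma fderiv_tr (i j k : X.ι) {u : E} (hj : u ∈ X.dom i j) (hk : u ∈ X.dom i k) (v : E) :
    fderiv ℂ (X.tr j k) (X.tr i j u) (fderiv ℂ (X.tr i j) u v) = fderiv ℂ (X.tr i k) u v := by
  have h1 : DifferentiableAt ℂ (X.tr i j) u := ((X.tr_analytic i j) u hj).differentiableAt
  have hm : X.tr i j u ∈ X.dom j k := by
    obtain ⟨w, hw⟩ := hk
    exact ⟨w, by rw [hw, X.φ_tr i j hj]⟩
  have h2 : DifferentiableAt ℂ (X.tr j k) (X.tr i j u) :=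
    ((X.tr_analytic j k) _ hm).differentiableAt
  have h3 : X.tr i k =ᶠ[𝓝 u] (X.tr j k) ∘ (X.tr i j) := by
    filter_upwards [(X.isOpen_dom i j).mem_nhds hj] with w hw
    exact (X.tr_tr i j k hw).symm
  rw [h3.fderiv_eq, fderiv_comp u h2 h1]
  rfl

lemma fderiv_tr_self (i : X.ι) (u v : E) : fderiv ℂ (X.tr i i) u v = v := by
  have : X.tr i i = id := by
    funext w; exact X.tr_self i w
  rw [this]; simp

lemma fderiv_tr_inj (i j : X.ι) {u : E} (hj : u ∈ X.dom i j) :
    Function.Injective (fderiv ℂ (X.tr i j) u) := by
  intro v w h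
  have h1 := X.fderiv_tr i j i hj (X.mem_dom (u := u) (v := u) rfl) v
  have h2 := X.fderiv_tr i j i hj (X.mem_dom (u := u) (v := u) rfl) w
  rw [h, h2] at h1
  rw [X.fderiv_tr_self, X.fderiv_tr_self] at h1
  exact h1.symm

lemma push_inj (i : X.ι) (u : E) : Function.Injective (X.push i u) :=
  X.fderiv_tr_inj _ _ (X.mem_dom_ch i u)

/-- the tangent vector does not depend on the chart -/
lemma push_fderiv (i j : X.ι) {u : E} (hj : u ∈ X.dom i j) (v : E) :
    X.push j (X.tr i j u) (fderiv ℂ (X.tr i j) u v) = X.push i u v := by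
  unfold push
  rw [X.φ_tr i j hj]
  exact X.fderiv_tr i j _ hj (X.mem_dom_ch i u) v

end CMfd

end basic

section proj

variable {E : Type} [NormedAddCommGroup E] [NormedSpace ℂ E] (X : Dir E)

namespace Dir

/-- the fibre of `V` at `x`: a two-dimensional space of tangent vectors at `x` -/
noncomputable def V (x : X.Pt) : Submodule ℂ E :=
  Submodule.span ℂ (range fun a => X.e (X.ch x) a (X.co x))

/-- the points of `P(V)`: pairs `(x, ℓ)` with `ℓ` a line in `V_x` -/
def PPt : Type :=
  {p : X.Pt × Submodule ℂ E // p.2 ≤ X.V p.1 ∧ Module.finrank ℂ p.2 = 1}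

/-- The direction with affine coordinate `κ = w.2` at the point with coordinates `w.1`:
`e₀ + κ e₁` for `a = false` and `e₁ + κ e₀` for `a = true`. -/
def vec (i : X.ι) (a : Bool) (w : E × ℂ) : E := X.e i a w.1 + w.2 • X.e i (!a) w.1

lemma vec_ne_zero (i : X.ι) (a : Bool) (w : E × ℂ) : X.vec i a w ≠ 0 := by
  intro h
  cases a
  · have := X.indep i w.1 1 w.2 (by simpa [vec] using h)
    exact one_ne_zero this.1
  · have := X.indep i w.1 w.2 1 (by simpa [vec, add_comm] using h)
    exact one_ne_zero this.2

lemma push_e_mem (i : X.ι) (a : Bool) (u : E) : X.push i u (X.e i a u) ∈ X.V (X.φ i u) := by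
  have h := X.frame i (X.ch (X.φ i u)) u (X.mem_dom_ch i u) a
  have h2 : X.tr i (X.ch (X.φ i u)) u = X.co (X.φ i u) := rfl
  unfold CMfd.push
  rw [h, h2]
  refine Submodule.add_mem _ (Submodule.smul_mem _ _ ?_) (Submodule.smul_mem _ _ ?_)
  · exact Submodule.subset_span ⟨false, rfl⟩
  · exact Submodule.subset_span ⟨true, rfl⟩

lemma line_prop (i : X.ι) (a : Bool) (w : E × ℂ) :
    Submodule.span ℂ {X.push i w.1 (X.vec i a w)} ≤ X.V (X.φ i w.1) ∧
      Module.finrank ℂ (Submodule.span ℂ {X.push i w.1 (X.vec i a w)}) = 1 := by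
  constructor
  · rw [Submodule.span_singleton_le_iff_mem, vec, map_add, map_smul]
    exact Submodule.add_mem _ (X.push_e_mem i a w.1) (Submodule.smul_mem _ _ (X.push_e_mem i _ w.1))
  · apply finrank_span_singleton
    intro h
    apply X.vec_ne_zero i a w
    apply X.push_inj i w.1
    rw [h, map_zero]

/-- the charts of `P(V)`: in the chart `(i, a)` the point `(u, κ)` is the point `φ i u` of `X` with
the line spanned by `vec i a (u, κ)` -/
noncomputable def pφ (k : X.ι × Bool) (w : E × ℂ) : X.PPt :=
  ⟨(X.φ k.1 w.1, Submodule.span ℂ {X.push k.1 w.1 (X.vec k.1 k.2 w)}), X.line_prop k.1 k.2 w⟩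

/-- The coefficient of `e j b` in the image of the direction `vec i a w` under the differential of
the transition map from the chart `i` to the chart `j`. -/
noncomputable def cf (i j : X.ι) (a b : Bool) (w : E × ℂ) : ℂ :=
  X.A i j a b w.1 + w.2 * X.A i j (!a) b w.1

/-- the domain of the transition map of `P(V)` from the chart `(i, a)` to the chart `(j, b)` -/
def pdom (k l : X.ι × Bool) : Set (E × ℂ) := {w | w.1 ∈ X.dom k.1 l.1 ∧ X.cf k.1 l.1 k.2 l.2 w ≠ 0}

/-- the transition map of `P(V)` from the chart `(i, a)` to the chart `(j, b)` -/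
noncomputable def ptr (k l : X.ι × Bool) (w : E × ℂ) : E × ℂ :=
  (X.tr k.1 l.1 w.1, X.cf k.1 l.1 k.2 (!l.2) w / X.cf k.1 l.1 k.2 l.2 w)

/-- The frame of the subbundle `V'` of the tangent bundle of `P(V)`: at the point `(u, κ)` of the
chart `(i, a)`, the space `V'` of the tangent vectors whose first component is in the line spanned by
`vec i a (u, κ)` is spanned by `(vec i a (u, κ), 0)` and `(0, 1)`. -/
def pe (k : X.ι × Bool) (c : Bool) (w : E × ℂ) : E × ℂ := if c then (0, 1) else (X.vec k.1 k.2 w, 0)

/-- the matrix of the differential of the transition map of `P(V)` on `V'` -/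
noncomputable def pA (k l : X.ι × Bool) (c d : Bool) (w : E × ℂ) : ℂ :=
  if d then fderiv ℂ (fun z => (X.ptr k l z).2) w (X.pe k c w)
  else if c then 0 else X.cf k.1 l.1 k.2 l.2 w

end Dir

end proj

end Pool.Agent.Q72.SM
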