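import Pool.Agent.Q72.SM.Def

/-!
# `ℙ¹ × ℙ¹`, holomorphic curves, forms and Nevanlinna currents

The data of the directed manifold `(ℙ¹ × ℙ¹, T)`, holomorphic curves and their lifts to
projectivizations, continuous 2-forms, Hermitian metrics, Nevanlinna currents and trace measures.
-/

set_option autoImplicit false

namespace Pool.Agent.Q72.SM

open Set Filter Topology MeasureTheory Complex

/-- the two affine charts of the Riemann sphere -/
noncomputable def ψ (a : Bool) (u : ℂ) : OnePoint ℂ :=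
  if a then (if u = 0 then OnePoint.infty else ((u⁻¹ : ℂ) : OnePoint ℂ)) else ((u : ℂ) : OnePoint ℂ)

/-- the four charts of `ℙ¹ × ℙ¹` -/
noncomputable def φ0 (k : Bool × Bool) (u : ℂ × ℂ) : OnePoint ℂ × OnePoint ℂ :=
  (ψ k.1 u.1, ψ k.2 u.2)

/-- the domains of the transition maps of `ℙ¹ × ℙ¹` -/
def dom0 (k l : Bool × Bool) : Set (ℂ × ℂ) := {u | (k.1 = l.1 ∨ u.1 ≠ 0) ∧ (k.2 = l.2 ∨ u.2 ≠ 0)}

/-- the transition maps of `ℙ¹ × ℙ¹` -/
noncomputable def tr0 (k l : Bool × Bool) (u : ℂ × ℂ) : ℂ × ℂ :=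
  (if k.1 = l.1 then u.1 else u.1⁻¹, if k.2 = l.2 then u.2 else u.2⁻¹)

/-- the frame of the tangent bundle -/
def e0 (_ : Bool × Bool) (a : Bool) (_ : ℂ × ℂ) : ℂ × ℂ := if a then (0, 1) else (1, 0)

/-- the differential of the transition maps in these frames -/
noncomputable def A0 (k l : Bool × Bool) (a b : Bool) (u : ℂ × ℂ) : ℂ :=
  if a = b then
    (if a then (if k.2 = l.2 then 1 else -(u.2 ^ 2)⁻¹) else (if k.1 = l.1 then 1 else -(u.1 ^ 2)⁻¹))
  else 0

section general

variable {E : Type} [NormedAddCommGroup E] [NormedSpace ℂ E]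

/-- `g : ℂ → X` is holomorphic -/
def IsHolo (X : CMfd E) (g : ℂ → X.Pt) : Prop :=
  ∀ z, ∃ (i : X.ι) (c : ℂ → E), AnalyticAt ℂ c z ∧ ∀ᶠ w in 𝓝 z, g w = X.φ i (c w)

/-- the velocity `g'(z)`, a tangent vector at `g z` -/
noncomputable def vel (X : CMfd E) (g : ℂ → X.Pt) (z : ℂ) : E :=
  deriv (fun w => Function.invFun (X.φ (X.ch (g z))) (g w)) z

instance instContAdd (E : Type) [NormedAddCommGroup E] [NormedSpace ℂ E] :
    ContinuousAdd (E →L[ℝ] E →L[ℝ] ℝ) :=
  (SeminormedAddCommGroup.toIsTopologicalAddGroup (E := E →L[ℝ] E →L[ℝ] ℝ)).toContinuousAdd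

/-- The continuous real 2-forms on `X`: an alternating form in every chart, compatible with the
transition maps. -/
def Form (X : CMfd E) : Submodule ℝ (X.ι → E → E →L[ℝ] E →L[ℝ] ℝ) where
  carrier := {η | (∀ i, Continuous (η i)) ∧ (∀ i u v, η i u v v = 0) ∧
    ∀ i j u, u ∈ X.dom i j → ∀ v w,
      η j (X.tr i j u) (fderiv ℂ (X.tr i j) u v) (fderiv ℂ (X.tr i j) u w) = η i u v w}
  add_mem' := by
    rintro η θ ⟨h1, h2, h3⟩ ⟨k1, k2, k3⟩
    refine ⟨fun i => (h1 i).add (k1 i), fun i u v => ?_, fun i j u hu v w => ?_⟩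
    · simp [h2, k2]
    · have := h3 i j u hu v w
      have := k3 i j u hu v w
      simp_all
  zero_mem' := ⟨fun _ => continuous_const, fun _ _ _ => rfl, fun _ _ _ _ _ _ => rfl⟩
  smul_mem' := by
    rintro c η ⟨h1, h2, h3⟩
    refine ⟨fun i => (h1 i).const_smul c, fun i u v => ?_, fun i j u hu v w => ?_⟩
    · simp [h2]
    · have := h3 i j u hu v w
      simp_all

/-- The function `u` with `g^* η = u dx ∧ dy`. -/
noncomputable def pull {X : CMfd E} (η : Form X) (g : ℂ → X.Pt) (z : ℂ) : ℝ :=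
  η.1 (X.ch (g z)) (X.co (g z)) (vel X g z) (I • vel X g z)

/-- `ω` is the fundamental form of a (continuous) Hermitian metric: a positive form of type
`(1,1)`. -/
def IsMetric {X : CMfd E} (ω : Form X) : Prop :=
  (∀ i u v w, ω.1 i u (I • v) (I • w) = ω.1 i u v w) ∧ ∀ i u v, v ≠ 0 → 0 < ω.1 i u v (I • v)

/-- the form `χ η` for a continuous function `χ` -/
noncomputable def mulForm {X : CMfd E} (χ : C(X.Pt, ℝ)) (η : Form X) : Form X :=
  ⟨fun i u => χ (X.φ i u) • η.1 i u, by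
    have hφ : ∀ i, Continuous (X.φ i) := fun i =>
      continuous_iSup_rng continuous_coinduced_rng
    refine ⟨fun i => (χ.continuous.comp (hφ i)).smul (η.2.1 i), fun i u v => ?_,
      fun i j u hu v w => ?_⟩
    · have := η.2.2.1 i u v
      simp [this]
    · have := η.2.2.2 i j u hu v w
      simp only [_root_.smul_apply]
      rw [X.φ_tr i j hu, this]⟩

/-- The integral `∫_0^r (∫_{|z| < t} g^* η) dt / t`. -/
noncomputable def nev {X : CMfd E} (η : Form X) (g : ℂ → X.Pt) (r : ℝ) : ℝ :=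
  ∫ t in Ioo 0 r, t⁻¹ * ∫ z in Metric.ball (0 : ℂ) t, pull η g z

/-- The length of the image of the circle of radius `t` under `g`. -/
noncomputable def len {X : CMfd E} (ω : Form X) (g : ℂ → X.Pt) (t : ℝ) : ℝ :=
  ∫ θ in Ioo 0 (2 * Real.pi), t * √(pull ω g (t * exp (θ * I)))

/-- `S` is a Nevanlinna current of `g` with respect to the Hermitian metric `ω`: for some
`r_n → ∞` it is the weak limit of the currents
`η ↦ (∫_0^{r_n} (∫_{|z| < t} g^* η) dt / t) / (∫_0^{r_n} (∫_{|z| < t} g^* ω) dt / t)`, and the boundary terms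
`(∫_0^{r_n} length(g(∂D_t)) dt / t) / (∫_0^{r_n} (∫_{|z| < t} g^* ω) dt / t)` tend to zero. -/
def IsNevanlinna {X : CMfd E} (ω : Form X) (g : ℂ → X.Pt) (S : Form X → ℝ) : Prop :=
  ∃ r : ℕ → ℝ, Tendsto r atTop atTop ∧
    Tendsto (fun n => (nev ω g (r n))⁻¹ * ∫ t in Ioo 0 (r n), t⁻¹ * len ω g t) atTop (𝓝 0) ∧
    ∀ η, Tendsto (fun n => (nev ω g (r n))⁻¹ * nev η g (r n)) atTop (𝓝 (S η))

/-- `σ` is the trace measure `S ∧ ω` of the current `S`. -/
def IsTrace {X : CMfd E} (ω : Form X) (S : Form X → ℝ) (σ : Measure X.Pt) : Prop :=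
  IsFiniteMeasure σ ∧ ∀ χ : C(X.Pt, ℝ), ∫ x, χ x ∂σ = S (mulForm χ ω)

/-- The vertical directions: for a directed manifold `Y` modelled on `E × ℂ` whose charts are
fibred over charts of a base modelled on `E`, the set of points `(y, ℓ)` of the projectivization with
`ℓ` tangent to the fibre through `y`. -/
def vert (Y : Dir (E × ℂ)) : Set Y.PPt := {p | ∀ v ∈ p.1.2, v.1 = 0}

/-- Global coordinates `c i : ℂ → E` of a curve in all charts, with velocity `a i false • e i false + a i true • e i true`,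
the components `a i b` being holomorphic functions without zeros. -/
structure Coords (X : Dir E) (g : ℂ → X.Pt) (c : X.ι → ℂ → E) (a : X.ι → Bool → ℂ → ℂ) : Prop where
  eq : ∀ i z, X.φ i (c i z) = g z
  deriv : ∀ i z, HasDerivAt (c i)
    (a i false z • X.e i false (c i z) + a i true z • X.e i true (c i z)) z
  ne : ∀ i b z, a i b z ≠ 0
  diff : ∀ i b, Differentiable ℂ (a i b)

end general

end Pool.Agent.Q72.SM
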