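import Pool.Agent.Q72.SM.Tower

/-!
# Assembly of the counterexample
-/

set_option autoImplicit false

namespace Pool.Agent.Q72.SM

open Set Filter Topology MeasureTheory Complex

/-- `h : ℂ → P(V)` is the lift of the curve `g : ℂ → X`: it is holomorphic, `h z` is a line in the
tangent space at `g z`, and the velocity `g'(z)` is contained in this line. -/
def IsLift {E : Type} [NormedAddCommGroup E] [NormedSpace ℂ E] (X : Dir E) (g : ℂ → X.Pt)
    (h : ℂ → (Proj X).Pt) : Prop :=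
  IsHolo (Proj X).toCMfd h ∧
    ∀ z, (show X.PPt from h z).1.1 = g z ∧ vel X.toCMfd g z ∈ (show X.PPt from h z).1.2

/-- the divisor `D₂ ⊂ X₂` of vertical directions, that is the singular locus of `X₂` -/
def D2 : Set X2.Pt := vert X1

theorem coords0 : Coords X0 f0 c0 a0 where
  eq := fun k z => expt.2.2.2.2.1 k z
  deriv := fun k z => expt.2.2.2.2.2 k z
  ne := fun k b z => (expt.1 k b).1 z
  diff := fun k b => (expt.1 k b).2

theorem exists_lift1 : ∃ f1 : ℂ → X1.Pt, IsLift X0 f0 f1 ∧ Coords X1 f1 (nC c0 a0) (nA a0) := by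
  obtain ⟨h, h1, h2, h3, h4⟩ := lift (ℂ × ℂ) X0 f0 c0 a0 coords0
  refine ⟨h, ⟨h3, h2⟩, ?_⟩
  exact {
    eq := fun k z => h1 k z
    deriv := fun k z => h4 k z
    ne := fun k b z => (expt.2.1 k b).1 z
    diff := fun k b => (expt.2.1 k b).2 }

theorem exists_lift2 : ∃ (f1 : ℂ → X1.Pt) (f2 : ℂ → X2.Pt), IsLift X0 f0 f1 ∧ IsLift X1 f1 f2 ∧
    ∀ k z, X2.φ k (nC (nC c0 a0) (nA a0) k z) = f2 z := by
  obtain ⟨f1, h1, h2⟩ := exists_lift1
  obtain ⟨h, k1, k2, k3, k4⟩ := lift ((ℂ × ℂ) × ℂ) X1 f1 (nC c0 a0) (nA a0) h2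
  exact ⟨f1, h, h1, ⟨k3, k2⟩, fun k z => k1 k z⟩

/-- the vertex fibre is contained in `D₂` -/
theorem vert_facts : (∀ s : ℂ, X2.φ (((false, false), false), true) (((0, 0), s), 0) ∈ D2) ∧
    IsClosed D2 := by
  have key := vertt (ℂ × ℂ) X1 ?_ ?_ ?_
  · refine ⟨fun s => ?_, key.2.2⟩
    exact (key.1 ((false, false), false) (((0, 0), s), 0)).2 rfl
  · intro k l w hw v
    have hw' : w ∈ X0.pdom k l := by
      have := projMfd_dom X0 k l
      exact this ▸ hw
    have h1 : fderiv ℂ (X1.tr k l) w = fderiv ℂ (X0.ptr k l) w := projMfd_fderiv X0 k l hw'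
    have hd : DifferentiableAt ℂ (X0.ptr k l) w :=
      ((p4 _ X0).2 k l w hw').differentiableAt
    have h2 : (fderiv ℂ (X0.ptr k l) w v).1 = fderiv ℂ (X0.tr k.1 l.1) w.1 v.1 := by
      have e1 : (fderiv ℂ (X0.ptr k l) w v).1 =
          fderiv ℂ (fun z => (X0.ptr k l z).1) w v := by
        have := (hasFDerivAt_fst.comp w hd.hasFDerivAt).fderiv
        have h3 : (fun z => (X0.ptr k l z).1) = Prod.fst ∘ (X0.ptr k l) := rfl
        rw [h3, this]; rfl
      have e2 : (fun z => (X0.ptr k l z).1) = (X0.tr k.1 l.1) ∘ Prod.fst := rfl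
      have hd0 : DifferentiableAt ℂ (X0.tr k.1 l.1) w.1 :=
        (X0.tr_analytic _ _ _ hw'.1).differentiableAt
      rw [e1, e2, (hd0.hasFDerivAt.comp w hasFDerivAt_fst).fderiv]
      rfl
    have h0 : (fderiv ℂ (X1.tr k l) w v).1 = fderiv ℂ (X0.tr k.1 l.1) w.1 v.1 := by
      rw [h1]; exact h2
    constructor
    · intro h
      rw [h0] at h
      apply X0.fderiv_tr_inj k.1 l.1 hw'.1
      rw [h, map_zero]
    · intro h
      rw [h0, h, map_zero]
  · intro k w
    rfl
  · intro k w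
    exact X0.vec_ne_zero k.1 k.2 w

theorem pull_add {E : Type} [NormedAddCommGroup E] [NormedSpace ℂ E] {X : CMfd E} (η θ : Form X)
    (g : ℂ → X.Pt) (z : ℂ) : pull (η + θ) g z = pull η g z + pull θ g z := rfl

theorem pull_smul {E : Type} [NormedAddCommGroup E] [NormedSpace ℂ E] {X : CMfd E} (c : ℝ)
    (η : Form X) (g : ℂ → X.Pt) (z : ℂ) : pull (c • η) g z = c * pull η g z := rfl

/-- a curve with linear growth of the area -/
def Lin {E : Type} [NormedAddCommGroup E] [NormedSpace ℂ E] {X : CMfd E} (g : ℂ → X.Pt) : Prop :=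
  ∀ η : Form X, Continuous (pull η g) ∧
    ∃ C : ℝ, 0 ≤ C ∧ ∀ t : ℝ, 0 ≤ t → ∫ z in Metric.ball (0 : ℂ) t, |pull η g z| ≤ C * t

section

variable {E : Type} [NormedAddCommGroup E] [NormedSpace ℂ E] {X : CMfd E} {g : ℂ → X.Pt}

theorem int_ball (hL : Lin g) (η : Form X) (t : ℝ) :
    IntegrableOn (pull η g) (Metric.ball 0 t) :=
  ((hL η).1.continuousOn.integrableOn_compact (isCompact_closedBall 0 t)).mono_set
    Metric.ball_subset_closedBall

theorem int_nev (hL : Lin g) (η : Form X) (r : ℝ) :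
    IntegrableOn (fun t : ℝ => t⁻¹ * ∫ z in Metric.ball (0 : ℂ) t, pull η g z) (Ioo 0 r) := by
  obtain ⟨h1, C, h2, h3⟩ := hL η
  rcases le_or_gt 0 r with hr | hr
  · exact (nevt _ C h1 h3 r hr).1
  · rw [Ioo_eq_empty (by linarith)]
    exact integrableOn_empty

theorem nev_add (hL : Lin g) (η θ : Form X) (r : ℝ) :
    nev (η + θ) g r = nev η g r + nev θ g r := by
  unfold nev
  rw [← integral_add (int_nev hL η r) (int_nev hL θ r)]
  congr 1
  funext t
  have : ∫ z in Metric.ball (0 : ℂ) t, pull (η + θ) g z =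
      (∫ z in Metric.ball (0 : ℂ) t, pull η g z) + ∫ z in Metric.ball (0 : ℂ) t, pull θ g z := by
    rw [← integral_add (int_ball hL η t) (int_ball hL θ t)]
    rfl
  rw [this]; ring

theorem nev_smul (c : ℝ) (η : Form X) (r : ℝ) :
    nev (c • η) g r = c * nev η g r := by
  unfold nev
  rw [← integral_const_mul]
  congr 1
  funext t
  have : ∫ z in Metric.ball (0 : ℂ) t, pull (c • η) g z =
      c * ∫ z in Metric.ball (0 : ℂ) t, pull η g z := by
    rw [← integral_const_mul]
    rfl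
  rw [this]; ring

theorem nev_mono (hL : Lin g) {η θ : Form X} (h : ∀ z, pull η g z ≤ pull θ g z) (r : ℝ) :
    nev η g r ≤ nev θ g r := by
  unfold nev
  refine setIntegral_mono_on (int_nev hL η r) (int_nev hL θ r) measurableSet_Ioo ?_
  intro t ht
  refine mul_le_mul_of_nonneg_left ?_ (inv_nonneg.2 ht.1.le)
  exact setIntegral_mono (int_ball hL η t) (int_ball hL θ t) h

end

theorem mulForm_pull {E : Type} [NormedAddCommGroup E] [NormedSpace ℂ E] {X : CMfd E}
    (χ : C(X.Pt, ℝ)) (η : Form X) (g : ℂ → X.Pt) (z : ℂ) :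
    pull (mulForm χ η) g z = χ (g z) * pull η g z := by
  change χ (X.φ (X.ch (g z)) (X.co (g z))) * _ = _
  rw [X.φ_co]; rfl

theorem pull_nonneg {E : Type} [NormedAddCommGroup E] [NormedSpace ℂ E] {X : CMfd E}
    {ω : Form X} (hω : IsMetric ω) (g : ℂ → X.Pt) (z : ℂ) : 0 ≤ pull ω g z := by
  unfold pull
  by_cases hv : vel X g z = 0
  · rw [hv]; simp
  · exact (hω.2 _ _ _ hv).le

theorem holo0 : IsHolo X0.toCMfd f0 := by
  intro z
  refine ⟨(false, false), c0 (false, false), ?_, ?_⟩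
  · have hd : Differentiable ℂ (c0 (false, false)) := fun w =>
      (expt.2.2.2.2.2 (false, false) w).differentiableAt
    exact hd.analyticAt z
  · exact Eventually.of_forall fun w => (expt.2.2.2.2.1 (false, false) w).symm

theorem nonconst0 : ∃ z w, f0 z ≠ f0 w := by
  refine ⟨0, 1, fun h => ?_⟩
  have h1 := congrArg Prod.fst h
  have h2 : ((exp 0 : ℂ) : OnePoint ℂ) = ((exp 1 : ℂ) : OnePoint ℂ) := h1
  have h3 := OnePoint.coe_injective h2
  rw [exp_zero] at h3
  have h4 := congrArg norm h3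
  rw [norm_one, Complex.norm_exp, one_re] at h4
  have := Real.add_one_lt_exp (one_ne_zero)
  linarith

theorem main : ∃ (f1 : ℂ → X1.Pt) (f2 : ℂ → X2.Pt), IsLift X0 f0 f1 ∧ IsLift X1 f1 f2 ∧
    (∃ ω : Form X2.toCMfd, IsMetric ω) ∧ ∀ ω : Form X2.toCMfd, IsMetric ω →
      (∃ S, IsNevanlinna ω f2 S) ∧ ∀ S, IsNevanlinna ω f2 S →
        S ω = 1 ∧ (∃ σ, IsTrace ω S σ) ∧ ∀ σ, IsTrace ω S σ → 0 < σ D2 := by
  obtain ⟨f1, f2, h1, h2, h3⟩ := exists_lift2
  refine ⟨f1, f2, h1, h2, metric _ X2.toCMfd, ?_⟩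
  intro ω hω
  have hL : Lin (X := X2.toCMfd) f2 := fun η =>
    ⟨(c1 _ X2.toCMfd f2).2 h2.1 η,
      areac X2.toCMfd f2 (nC (nC c0 a0) (nA a0)) h3 expt.2.2.1 η⟩
  obtain ⟨c, hc, hlow⟩ := low X2.toCMfd f2 (((false, false), false), true) ω hω
    (fun z => by rw [← expt.2.2.2.1 z]; exact h3 _ z) hL
  obtain ⟨C, hC0, hC⟩ := (hL ω).2
  have hup : ∀ r, 0 ≤ r → nev ω f2 r ≤ C * r := fun r hr =>
    (le_abs_self _).trans (nevt _ C (hL ω).1 hC r hr).2
  have hnn : ∀ (χ : C(X2.Pt, ℝ)), (∀ x, 0 ≤ χ x) → ∀ r, 0 ≤ nev (mulForm χ ω) f2 r := by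
    intro χ hχ r
    have := nev_mono hL (η := (0 : ℝ) • ω) (θ := mulForm χ ω) (fun z => by
      rw [mulForm_pull, pull_smul, zero_mul]
      exact mul_nonneg (hχ _) (pull_nonneg hω _ _)) r
    rw [nev_smul, zero_mul] at this
    exact this
  -- lower bound for nev ω
  have hone : mulForm (1 : C(X2.Pt, ℝ)) ω = ω := by
    apply Subtype.ext
    funext i u
    change (1 : ℝ) • ω.1 i u = ω.1 i u
    rw [one_smul]
  obtain ⟨r0, hr0⟩ := hlow univ isOpen_univ (fun _ _ => mem_univ _)
  have hT : ∀ r, r0 ≤ r → c * r ≤ nev ω f2 r := by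
    intro r hr
    have := hr0 r hr 1 (fun _ => zero_le_one) (fun _ _ => le_refl _)
    rw [hone] at this
    exact this
  have hCpos : 0 < C := by
    have h4 := hT (max r0 1) (le_max_left _ _)
    have h5 := hup (max r0 1) (le_trans zero_le_one (le_max_right _ _))
    have h6 : (0 : ℝ) < max r0 1 := lt_of_lt_of_le one_pos (le_max_right _ _)
    nlinarith
  refine ⟨?_, ?_⟩
  · -- existence
    obtain ⟨K, hK0, hK⟩ := bnd _ X2.toCMfd ω hω
    let R : ℕ → ℝ := fun n => max r0 1 + n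
    have hR1 : ∀ n, 1 ≤ R n := fun n => by
      have : (0 : ℝ) ≤ n := Nat.cast_nonneg n
      have := le_max_right r0 1
      simp only [R]; linarith
    have hR2 : ∀ n, r0 ≤ R n := fun n => by
      have : (0 : ℝ) ≤ n := Nat.cast_nonneg n
      have := le_max_left r0 1
      simp only [R]; linarith
    have hRt : Tendsto R atTop atTop :=
      tendsto_atTop_add_const_left _ _ tendsto_natCast_atTop_atTop
    have hNpos : ∀ n, 0 < nev ω f2 (R n) := fun n =>
      lt_of_lt_of_le (mul_pos hc (lt_of_lt_of_le one_pos (hR1 n))) (hT _ (hR2 n))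
    let L : ℕ → Form X2.toCMfd →ₗ[ℝ] ℝ := fun n =>
      { toFun := fun η => (nev ω f2 (R n))⁻¹ * nev η f2 (R n)
        map_add' := fun η θ => by rw [nev_add hL, mul_add]
        map_smul' := fun a η => by
          rw [nev_smul]
          simp only [RingHom.id_apply, smul_eq_mul]
          ring }
    obtain ⟨f, S, hf, hS⟩ := seq _ X2.toCMfd L K (by
      intro n η M hM
      have hb := hK f2 h2.1 η M hM
      have hp : nev η f2 (R n) ≤ K * M * nev ω f2 (R n) := by
        rw [← nev_smul]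
        refine nev_mono hL (fun z => ?_) _
        rw [pull_smul]
        exact (le_abs_self _).trans (hb z)
      have hm : -(K * M * nev ω f2 (R n)) ≤ nev η f2 (R n) := by
        have : nev ((-(K * M)) • ω) f2 (R n) ≤ nev η f2 (R n) := by
          refine nev_mono hL (fun z => ?_) _
          rw [pull_smul]
          have := (abs_le.1 (hb z)).1
          linarith
        rw [nev_smul] at this
        linarith
      change |(nev ω f2 (R n))⁻¹ * nev η f2 (R n)| ≤ K * M
      rw [abs_mul, abs_of_pos (inv_pos.2 (hNpos n)), inv_mul_le_iff₀ (hNpos n)]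
      rw [abs_le]
      constructor <;> linarith)
    refine ⟨S, fun n => R (f n), hRt.comp hf.tendsto_atTop, ?_, hS⟩
    have hlen := lent (pull ω f2) C (hL ω).1 (pull_nonneg hω f2) (fun t ht => by
      refine le_trans (le_of_eq ?_) (hC t ht)
      refine setIntegral_congr_fun Metric.isOpen_ball.measurableSet (fun z _ => ?_)
      exact (abs_of_nonneg (pull_nonneg hω f2 z)).symm)
    have hlen2 := (hlen.comp (hRt.comp hf.tendsto_atTop)).const_mul c⁻¹
    rw [mul_zero] at hlen2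
    refine squeeze_zero ?_ ?_ hlen2
    · intro n
      refine mul_nonneg (inv_nonneg.2 (hNpos _).le) ?_
      refine setIntegral_nonneg measurableSet_Ioo (fun t ht => ?_)
      refine mul_nonneg (inv_nonneg.2 ht.1.le) ?_
      refine setIntegral_nonneg measurableSet_Ioo (fun θ _ => ?_)
      exact mul_nonneg ht.1.le (Real.sqrt_nonneg _)
    · intro n
      have hx : 0 ≤ ∫ t in Ioo 0 (R (f n)), t⁻¹ * len ω f2 t := by
        refine setIntegral_nonneg measurableSet_Ioo (fun t ht => ?_)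
        refine mul_nonneg (inv_nonneg.2 ht.1.le) ?_
        refine setIntegral_nonneg measurableSet_Ioo (fun θ _ => ?_)
        exact mul_nonneg ht.1.le (Real.sqrt_nonneg _)
      have hRp : 0 < R (f n) := lt_of_lt_of_le one_pos (hR1 _)
      have : (nev ω f2 (R (f n)))⁻¹ ≤ c⁻¹ * (R (f n))⁻¹ := by
        rw [← mul_inv]
        exact inv_anti₀ (mul_pos hc hRp) (hT _ (hR2 _))
      calc (nev ω f2 (R (f n)))⁻¹ * ∫ t in Ioo 0 (R (f n)), t⁻¹ * len ω f2 t
          ≤ (c⁻¹ * (R (f n))⁻¹) * ∫ t in Ioo 0 (R (f n)), t⁻¹ * len ω f2 t :=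
            mul_le_mul_of_nonneg_right this hx
        _ = _ := by rw [mul_assoc]; rfl
  · rintro S ⟨r, hr, -, hS⟩
    have hSadd : ∀ η θ, S (η + θ) = S η + S θ := fun η θ => by
      refine tendsto_nhds_unique (hS (η + θ)) ?_
      refine ((hS η).add (hS θ)).congr (fun n => ?_)
      rw [nev_add hL, mul_add]
    have hSsmul : ∀ (a : ℝ) η, S (a • η) = a * S η := fun a η => by
      refine tendsto_nhds_unique (hS (a • η)) ?_
      refine ((hS η).const_mul a).congr (fun n => ?_)
      rw [nev_smul]; ring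
    have hSpos : ∀ χ : C(X2.Pt, ℝ), (∀ x, 0 ≤ χ x) → 0 ≤ S (mulForm χ ω) := by
      intro χ hχ
      refine ge_of_tendsto' (hS _) (fun n => ?_)
      refine mul_nonneg (inv_nonneg.2 ?_) (hnn χ hχ _)
      have := hnn 1 (fun _ => zero_le_one) (r n)
      rw [hone] at this
      exact this
    have hSone : S ω = 1 := by
      refine tendsto_nhds_unique (hS ω) ?_
      refine Tendsto.congr' ?_ tendsto_const_nhds
      filter_upwards [hr.eventually_ge_atTop (max r0 1)] with n hn
      have hrp : 0 < r n := lt_of_lt_of_le one_pos (le_trans (le_max_right _ _) hn)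
      have a3 := hT (r n) (le_trans (le_max_left _ _) hn)
      have a4 : 0 < nev ω f2 (r n) := lt_of_lt_of_le (mul_pos hc hrp) a3
      rw [inv_mul_cancel₀ a4.ne']
    refine ⟨hSone, riesz _ X2.toCMfd ω S hSadd hSsmul hSpos, ?_⟩
    intro σ hσ
    have hm := mass _ X2.toCMfd ω S σ D2 (c / C) hσ vert_facts.2 (by
      intro U hU hDU χ hχ0 hχ1
      obtain ⟨s0, hs0⟩ := hlow U hU (fun s _ => hDU (vert_facts.1 s))
      refine ge_of_tendsto (hS _) ?_
      filter_upwards [hr.eventually_ge_atTop (max (max s0 r0) 1)] with n hn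
      have hn1 : s0 ≤ r n := le_trans (le_trans (le_max_left _ _) (le_max_left _ _)) hn
      have hn2 : r0 ≤ r n := le_trans (le_trans (le_max_right _ _) (le_max_left _ _)) hn
      have hn3 : 1 ≤ r n := le_trans (le_max_right _ _) hn
      have hrp : 0 < r n := lt_of_lt_of_le one_pos hn3
      have a1 := hs0 (r n) hn1 χ hχ0 hχ1
      have a2 := hup (r n) hrp.le
      have a3 := hT (r n) hn2
      have a4 : 0 < nev ω f2 (r n) := lt_of_lt_of_le (mul_pos hc hrp) a3
      rw [inv_mul_eq_div, div_le_div_iff₀ hCpos a4]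
      calc c * nev ω f2 (r n) ≤ c * (C * r n) := mul_le_mul_of_nonneg_left a2 hc.le
        _ = (c * r n) * C := by ring
        _ ≤ _ := mul_le_mul_of_nonneg_right a1 hCpos.le)
    exact lt_of_lt_of_le (ENNReal.ofReal_pos.2 (div_pos hc hCpos)) hm

end Pool.Agent.Q72.SM
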