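import Pool.Agent.Q72.SM.Stm2

set_option autoImplicit false

namespace Pool.Agent.Q72.SM

open Set Filter Topology MeasureTheory

lemma continuous_ballInt (p : ℂ → ℝ) (hp : Continuous p) :
    Measurable fun t : ℝ => ∫ z in Metric.ball (0 : ℂ) t, p z := by
  have h : (fun t : ℝ => ∫ z in Metric.ball (0 : ℂ) t, p z) =
      fun t : ℝ => ∫ z, (fun q : ℝ × ℂ => if ‖q.2‖ < q.1 then p q.2 else 0) (t, z) := by
    funext t
    rw [← integral_indicator Metric.isOpen_ball.measurableSet]
    congr 1
    funext z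
    by_cases hz : ‖z‖ < t
    · rw [indicator_of_mem (by simpa using hz)]
      simp [hz]
    · rw [indicator_of_notMem (by simpa using hz)]
      simp [hz]
  rw [h]
  have hm : StronglyMeasurable (fun q : ℝ × ℂ => if ‖q.2‖ < q.1 then p q.2 else 0) := by
    apply Measurable.stronglyMeasurable
    refine Measurable.ite ?_ (hp.measurable.comp measurable_snd) measurable_const
    exact measurableSet_lt (measurable_snd.norm) measurable_fst
  exact (hm.integral_prod_right).measurable

theorem nevt : S_NEV := by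
  intro p C hp hC r hr
  have hmeas : Measurable fun t : ℝ => t⁻¹ * ∫ z in Metric.ball (0 : ℂ) t, p z :=
    measurable_inv.mul (continuous_ballInt p hp)
  have hb : ∀ t ∈ Ioo (0 : ℝ) r, ‖t⁻¹ * ∫ z in Metric.ball (0 : ℂ) t, p z‖ ≤ C := by
    intro t ht
    have h1 : ‖∫ z in Metric.ball (0 : ℂ) t, p z‖ ≤ C * t :=
      (norm_integral_le_integral_norm _).trans (hC t ht.1.le)
    rw [norm_mul, norm_inv, Real.norm_of_nonneg ht.1.le, inv_mul_le_iff₀ ht.1]
    linarith
  have hint : IntegrableOn (fun t : ℝ => t⁻¹ * ∫ z in Metric.ball (0 : ℂ) t, p z) (Ioo 0 r) := by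
    refine Measure.integrableOn_of_bounded (M := C) ?_ hmeas.aestronglyMeasurable ?_
    · simp
    · exact (ae_restrict_mem measurableSet_Ioo).mono hb
  refine ⟨hint, ?_⟩
  have h2 := norm_setIntegral_le_of_norm_le_const (μ := volume) (s := Ioo (0 : ℝ) r)
    (f := fun t : ℝ => t⁻¹ * ∫ z in Metric.ball (0 : ℂ) t, p z) (C := C) (by simp) hb
  rw [Real.norm_eq_abs] at h2
  simpa [Real.volume_real_Ioo_of_le hr] using h2

end Pool.Agent.Q72.SM
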