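import Pool.Agent.Q72.SM.Def

/-!
# Statements for the projectivization of a directed manifold (jobs P1–P6)
-/

set_option autoImplicit false

namespace Pool.Agent.Q72.SM

open Set Filter Topology

/-- P1. The image of `vec i a w` in the frame of the chart `j`, and the analyticity and independence of
the frames of `P(V)`.
Proof: `X.frame` for `a` and `!a`, linearity, cases on `a`; `pe` is constant or `(e a w.1 + w.2 • e (!a) w.1, 0)`
(`X.e_analytic` composed with `Prod.fst`); independence: second component gives `β = 0`, first component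
gives `α • vec = 0` and `X.vec_ne_zero`. -/
def S_P1 : Prop := ∀ (E : Type) [NormedAddCommGroup E] [NormedSpace ℂ E] (X : Dir E),
  (∀ (i j : X.ι) (a : Bool) (w : E × ℂ), w.1 ∈ X.dom i j →
    fderiv ℂ (X.tr i j) w.1 (X.vec i a w) = X.cf i j a false w • X.e j false (X.tr i j w.1) +
      X.cf i j a true w • X.e j true (X.tr i j w.1)) ∧
  (∀ (k : X.ι × Bool) (c : Bool), AnalyticOnNhd ℂ (X.pe k c) univ) ∧
  (∀ (k : X.ι × Bool) (w : E × ℂ) (α β : ℂ), α • X.pe k false w + β • X.pe k true w = 0 →
    α = 0 ∧ β = 0)

/-- P2. Charts of `P(V)` are injective, and the images of the closed unit ball cover `P(V)`.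
Proof. Injectivity: if `pφ (i,a) (u,κ) = pφ (i,a) (u',κ')` then `φ i u = φ i u'` gives `u = u'`, and
`span {push (vec (u,κ))} = span {push (vec (u,κ'))}` gives `vec (u,κ) = c • vec (u,κ')` (`X.push_inj`), hence
`κ = κ'` by `X.indep`.  Cover: let `p = (x, ℓ)`, `x = φ i u` with `‖u‖ ≤ 1` (`X.cover`).  `ℓ = span {v}` with
`v ∈ V x`, and `V x` is spanned by the `push i u (e i b u)` (`X.push_e_mem` shows `⊇`; for `⊆` use `X.frame` for the
transition from the chart `X.ch x` back to `i`: `e (ch x) a (co x)` is the image under `fderiv (tr i (ch x)) u` of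
`fderiv (tr (ch x) i) (co x) (e (ch x) a (co x))`, `X.fderiv_tr` and `X.fderiv_tr_self`), so `v = push i u (α e₀ + β e₁)`.
If `‖β‖ ≤ ‖α‖` take `a = false`, `κ = β / α`, otherwise `a = true`, `κ = α / β`; then `‖(u, κ)‖ ≤ 1` (sup norm). -/
def S_P2 : Prop := ∀ (E : Type) [NormedAddCommGroup E] [NormedSpace ℂ E] (X : Dir E),
  (∀ (k : X.ι × Bool), Function.Injective (X.pφ k)) ∧
  (∀ p : X.PPt, ∃ (k : X.ι × Bool) (w : E × ℂ), ‖w‖ ≤ 1 ∧ X.pφ k w = p)

/-- P3. The transition maps of `P(V)`.
Proof. (1) `φ j (tr i j u) = φ i u` (`X.φ_tr`), and by `X.push_fderiv` and P1 the vector `push i u (vec i a w)` is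
`push j (tr i j u) (c₀ e j false + c₁ e j true)` with `c_d = cf i j a d w`; as `cf i j a b w ≠ 0` it is `cf i j a b w •
push j (tr i j u) (vec j b (ptr w))`, so the lines agree.  (2) From the equality of the first components `w.1 ∈ dom i j`
and `w'.1 = tr i j w.1`; equality of the lines: `c₀ e j false + c₁ e j true = t • vec j b w'` with `t ≠ 0` (injectivity of
`push`, both vectors nonzero) so by `X.indep` `cf i j a b w = t ≠ 0`. -/
def S_P3 : Prop := ∀ (E : Type) [NormedAddCommGroup E] [NormedSpace ℂ E] (X : Dir E),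
  (∀ (k l : X.ι × Bool) (w : E × ℂ), w ∈ X.pdom k l → X.pφ l (X.ptr k l w) = X.pφ k w) ∧
  (∀ (k l : X.ι × Bool) (w w' : E × ℂ), X.pφ l w' = X.pφ k w → w ∈ X.pdom k l)

/-- P4. The domains are open and the transition maps are analytic. Proof: `X.isOpen_dom`, `X.tr_analytic`,
`X.A_analytic` (composed with the analytic map `Prod.fst`); the set is the intersection of the preimage of
`dom i j` with the set where an analytic (continuous) function on it does not vanish; quotients of analytic functions with
nonvanishing denominator are analytic; `AnalyticAt.prod`. -/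
def S_P4 : Prop := ∀ (E : Type) [NormedAddCommGroup E] [NormedSpace ℂ E] (X : Dir E),
  (∀ (k l : X.ι × Bool), IsOpen (X.pdom k l)) ∧
  (∀ (k l : X.ι × Bool), AnalyticOnNhd ℂ (X.ptr k l) (X.pdom k l))

/-- P5. `P(V)` is Hausdorff.
Proof. Let `p = (x, ℓ) ≠ p' = (x', ℓ')`.  The projection `π : P(V) → X` is continuous, because `π ∘ pφ (i,a) = φ i ∘ fst`
is continuous (`φ i` is continuous for the coinduced topology, `continuous_iSup_dom`, `continuous_coinduced_dom`).
If `x ≠ x'` separate `x` and `x'` in `X.Pt` (`X.t2`).  If `x = x'`: for an open set `U ⊆ E × ℂ` the set `pφ k '' U` is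
open: its preimage under `pφ l` is `pdom l k ∩ (ptr l k)⁻¹ U` (P3, injectivity P2), which is open because `ptr l k` is continuous on the
open set `pdom l k` (P4).  By P2 (cover) `x = φ i u` (take `i`, `u` from `p`), and by
P2/P3 both points have coordinates in charts over the same `i`: every line in `V x` is the line of `vec i false (u, κ)` or of `vec i true (u, κ)`.
If both points are in the same chart `(i, a)`: `p = pφ (i,a) (u,κ)`, `p' = pφ (i,a) (u,κ')` with `κ ≠ κ'`; take
disjoint open neighbourhoods of the two coordinates.  Otherwise (neither chart contains both) one of them is `pφ (i,false) (u, 0)`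
and the other `pφ (i,true) (u, 0)`: take `U = {w | ‖w.2‖ < 1}` in both charts; if `pφ (i,false) (v,κ) = pφ (i,true) (v',κ')` then
`v = v'`, `e₀ + κ e₁ = t (e₁ + κ' e₀)`, so `κ κ' = 1`, impossible when both have norm `< 1`.
(`pφ (i,false) (u,κ)` with `κ ≠ 0` equals `pφ (i,true) (u, κ⁻¹)`.) -/
def S_P5 : Prop := ∀ (E : Type) [NormedAddCommGroup E] [NormedSpace ℂ E] (X : Dir E),
  @T2Space X.PPt (⨆ k, TopologicalSpace.coinduced (X.pφ k) inferInstance)

/-- P6. The frame of the subbundle of `P(V)`.
Proof. `ptr k l = (tr ∘ fst, κ')` with `κ' = cf (!b) / cf b`; the entries of `pA` are analytic: `cf` is, the derivative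
`fderiv ℂ κ' w (pe k c w)` is (`AnalyticOnNhd.fderiv`, P4, and application of an analytic family of continuous linear maps to an
analytic map).  Frame equation: the first component of `fderiv (ptr k l) w (v, s)` is `fderiv (tr i j) w.1 v` and the second
is `fderiv κ' w (v, s)` (`ptr` is differentiable at the points of `pdom`, P4).  For `c = true`: `pe = (0, 1)`: first component `0`, second `fderiv κ' w (0,1)`,
`= 0 • pe l false + (fderiv κ' w (0,1)) • (0,1)`.  For `c = false`: `pe = (vec i a w, 0)`; the first component is by P1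
`cf false • e j false + cf true • e j true = cf b • (e j b + κ' • e j (!b)) = cf b • vec j b (ptr w)`, the second
component is `fderiv κ' w (vec, 0)`. -/
def S_P6 : Prop := ∀ (E : Type) [NormedAddCommGroup E] [NormedSpace ℂ E] (X : Dir E),
  (∀ (k l : X.ι × Bool) (c d : Bool), AnalyticOnNhd ℂ (X.pA k l c d) (X.pdom k l)) ∧
  (∀ (k l : X.ι × Bool) (w : E × ℂ), w ∈ X.pdom k l → ∀ c : Bool,
    fderiv ℂ (X.ptr k l) w (X.pe k c w) = X.pA k l c false w • X.pe l false (X.ptr k l w) +
      X.pA k l c true w • X.pe l true (X.ptr k l w))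

end Pool.Agent.Q72.SM
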