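import Pool.Agent.Q72.SM.Def2

/-!
# Statements for the counterexample (second list of jobs)
-/

set_option autoImplicit false

namespace Pool.Agent.Q72.SM

open Set Filter Topology MeasureTheory Complex

/-- the model space `ℂ⁴` of the second level of the tower over a surface -/
abbrev E4 : Type := ((ℂ × ℂ) × ℂ) × ℂ

/-- B1. `ℙ¹ × ℙ¹` is a compact complex manifold.
Proof. `range (ψ false) = ℂ`, `range (ψ true) = {z ≠ 0} ∪ {∞}`; every point of the sphere is `ψ a u` with `‖u‖ ≤ 1`.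
Hausdorff: the maps `φ0 k` are continuous for the product topology of `OnePoint ℂ × OnePoint ℂ` (`ψ true` is continuous at `0`
because `u⁻¹` tends to infinity), so the topology in the statement is finer than a Hausdorff topology. -/
def S_B1 : Prop :=
  (∀ k, Function.Injective (φ0 k)) ∧ (∀ x, ∃ (k : Bool × Bool) (u : ℂ × ℂ), ‖u‖ ≤ 1 ∧ φ0 k u = x) ∧
  (∀ k l, {u | φ0 k u ∈ range (φ0 l)} = dom0 k l) ∧
  (∀ k l u, u ∈ dom0 k l → φ0 l (tr0 k l u) = φ0 k u) ∧ (∀ k l, IsOpen (dom0 k l)) ∧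
  (∀ k l, AnalyticOnNhd ℂ (tr0 k l) (dom0 k l)) ∧
  @T2Space (OnePoint ℂ × OnePoint ℂ) (⨆ k, TopologicalSpace.coinduced (φ0 k) inferInstance)

/-- B2. The frame of the tangent bundle of `ℙ¹ × ℙ¹`. -/
def S_B2 : Prop :=
  (∀ k a, AnalyticOnNhd ℂ (e0 k a) univ) ∧
  (∀ k u (α β : ℂ), α • e0 k false u + β • e0 k true u = 0 → α = 0 ∧ β = 0) ∧
  (∀ k l a b, AnalyticOnNhd ℂ (A0 k l a b) (dom0 k l)) ∧
  (∀ k l u, u ∈ dom0 k l → ∀ a, fderiv ℂ (tr0 k l) u (e0 k a u) =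
    A0 k l a false u • e0 l false (tr0 k l u) + A0 k l a true u • e0 l true (tr0 k l u))

/-- C1. Velocity and pull-back of forms in a chart.
Proof. Near `z` the coordinate of `g w` in the chart `ch (g z)` is `tr i (ch (g z)) (c w)`: chain rule (`X.tr_analytic`,
`X.isOpen_dom`, `X.mem_dom_ch`).  Then the compatibility of the form `η`, `X.co (g z) = tr i (ch (g z)) (c z)` (definition).
Continuity: near `z` the function is `w ↦ η i (c w) (c' w) (I • c' w)` with `c` analytic near `z` (analyticity at a point is an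
open condition). -/
def S_C1 : Prop := ∀ (E : Type) [NormedAddCommGroup E] [NormedSpace ℂ E] [FiniteDimensional ℂ E]
  (X : CMfd E) (g : ℂ → X.Pt),
  (∀ (i : X.ι) (c : ℂ → E) (z : ℂ) (v : E), HasDerivAt c v z → (∀ᶠ w in 𝓝 z, g w = X.φ i (c w)) →
    vel X g z = fderiv ℂ (X.tr i (X.ch (g z))) (c z) v ∧
    ∀ η : Form X, pull η g z = η.1 i (c z) v (I • v)) ∧
  (IsHolo X g → ∀ η : Form X, Continuous (pull η g))

/-- LIFT. The lift of a curve with coordinates in all charts.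
Proof. `vel X g z = X.push i (c i z) (velocity in chart i)` by C1 (with `φ i (c i z) = g z`), for every `i`; the velocity in the chart `i` is
`a i b • vec i b (c i z, a i (!b) / a i b)`, so the line `span {push i (c i z) (vec ...)}` is the span of `vel X g z`, which does not
depend on the chart.  `h z := ⟨(g z, span {vel X g z}), _⟩`, or `h z := X.pφ (i₀, false) ...` for a fixed `i₀` (`X.ι` is nonempty by
`X.cover`).  The derivative: `HasDerivAt.prodMk` and the derivative of the quotient (differentiable since `a i b` has no zeros). -/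
def S_LIFT : Prop := ∀ (E : Type) [NormedAddCommGroup E] [NormedSpace ℂ E] [FiniteDimensional ℂ E]
  (X : Dir E) (g : ℂ → X.Pt) (c : X.ι → ℂ → E) (a : X.ι → Bool → ℂ → ℂ), Coords X g c a →
  ∃ h : ℂ → X.PPt,
    (∀ (k : X.ι × Bool) (z : ℂ), X.pφ k (c k.1 z, a k.1 (!k.2) z / a k.1 k.2 z) = h z) ∧
    (∀ z, (h z).1.1 = g z ∧ vel X.toCMfd g z ∈ (h z).1.2) ∧
    (∀ z, ∃ (k : X.ι × Bool) (d : ℂ → E × ℂ), AnalyticAt ℂ d z ∧ ∀ᶠ w in 𝓝 z, h w = X.pφ k (d w)) ∧
    (∀ (k : X.ι × Bool) (z : ℂ), HasDerivAt (fun w => (c k.1 w, a k.1 (!k.2) w / a k.1 k.2 w))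
      (a k.1 k.2 z • X.pe k false (c k.1 z, a k.1 (!k.2) z / a k.1 k.2 z) +
        deriv (fun w => a k.1 (!k.2) w / a k.1 k.2 w) z •
          X.pe k true (c k.1 z, a k.1 (!k.2) z / a k.1 k.2 z)) z)

/-- VERT. The set of vertical directions is closed, and given by `w.2 = 0` in the charts `(k, true)`.
Proof. The line of `pφ (k, b) w` is spanned by `push k w.1 (vec k b w)` with `push k w.1 = fderiv (tr k _) w.1`, so by the first hypothesis
it is vertical iff `(vec k b w).1 = 0`.  `vec k true w = (0, 1) + w.2 • e k false` has first component `w.2 • (e k false w.1).1`;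
`vec k false w = e k false w.1 + w.2 • (0,1)` has first component `≠ 0`.  Closed: the preimages under all charts are closed. -/
def S_VERT : Prop := ∀ (E : Type) [NormedAddCommGroup E] [NormedSpace ℂ E] (Y : Dir (E × ℂ)),
  (∀ (k l : Y.ι) (w : E × ℂ), w ∈ Y.dom k l → ∀ v : E × ℂ,
    (fderiv ℂ (Y.tr k l) w v).1 = 0 ↔ v.1 = 0) →
  (∀ (k : Y.ι) (w : E × ℂ), Y.e k true w = (0, 1)) →
  (∀ (k : Y.ι) (w : E × ℂ), (Y.e k false w).1 ≠ 0) →
  (∀ (k : Y.ι) (w : (E × ℂ) × ℂ), Y.pφ (k, true) w ∈ vert Y ↔ w.2 = 0) ∧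
  (∀ (k : Y.ι) (w : (E × ℂ) × ℂ), Y.pφ (k, false) w ∉ vert Y) ∧
  @IsClosed Y.PPt (⨆ k, TopologicalSpace.coinduced (Y.pφ k) inferInstance) (vert Y)

/-- a sign -/
def sg (b : Bool) : ℂ := if b then -1 else 1

/-- the coordinates of the curve `(e^z, e^{(1+i)z})` in the charts of `ℙ¹ × ℙ¹` -/
noncomputable def c0 (k : Bool × Bool) (z : ℂ) : ℂ × ℂ :=
  (exp (sg k.1 * z), exp (sg k.2 * (1 + I) * z))

/-- the components of its velocity -/
noncomputable def a0 (k : Bool × Bool) (b : Bool) (z : ℂ) : ℂ :=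
  if b then sg k.2 * (1 + I) * exp (sg k.2 * (1 + I) * z) else sg k.1 * exp (sg k.1 * z)

/-- the coordinates of the lift -/
noncomputable def nC {K E : Type} (c : K → ℂ → E) (a : K → Bool → ℂ → ℂ) (k : K × Bool) (z : ℂ) :
    E × ℂ := (c k.1 z, a k.1 (!k.2) z / a k.1 k.2 z)

/-- the components of the velocity of the lift -/
noncomputable def nA {K : Type} (a : K → Bool → ℂ → ℂ) (k : K × Bool) (b : Bool) (z : ℂ) : ℂ :=
  if b then deriv (fun w => a k.1 (!k.2) w / a k.1 k.2 w) z else a k.1 k.2 z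

/-- EXP. All coordinates are exponentials (case distinction over the 8 and 16 charts).
Proof. With `s = sg k.1`, `t = sg k.2`: `a0 k false = s e^{sz}`, `a0 k true = t(1+i) e^{t(1+i)z}`, the quotients are constant nonzero multiples of
`e^{±δz}`, `δ = t(1+i) - s ≠ 0`, their derivatives again; the quotients at the second level are constant multiples of `e^{±(δ - s)z}`
(`b = false`) and `e^{±(δ + t(1+i)) z}` (`b = true`), with nonzero exponents (`δ - s = t(1+i) - 2s`, `δ + t(1+i) = 2t(1+i) - s`).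
General helper: if `a k b z = p e^{qz}` for all `z` ... -/
def S_EXP : Prop :=
  (∀ (k : Bool × Bool) (b : Bool), (∀ z, a0 k b z ≠ 0) ∧ Differentiable ℂ (a0 k b)) ∧
  (∀ (k : (Bool × Bool) × Bool) (b : Bool), (∀ z, nA a0 k b z ≠ 0) ∧ Differentiable ℂ (nA a0 k b)) ∧
  (∀ k : ((Bool × Bool) × Bool) × Bool, ∃ α γ : Fin 4 → ℂ, (∀ j, γ j ≠ 0) ∧
    ∀ z, nC (nC c0 a0) (nA a0) k z =
      (((α 0 * exp (γ 0 * z), α 1 * exp (γ 1 * z)), α 2 * exp (γ 2 * z)), α 3 * exp (γ 3 * z))) ∧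
  (∀ z, nC (nC c0 a0) (nA a0) (((false, false), false), true) z =
      (((exp z, exp ((1 + I) * z)), (1 + I) * exp (I * z)), (I * (1 + I))⁻¹ * exp ((1 - I) * z))) ∧
  (∀ (k : Bool × Bool) (z : ℂ), φ0 k (c0 k z) =
      (((exp z : ℂ) : OnePoint ℂ), ((exp ((1 + I) * z) : ℂ) : OnePoint ℂ))) ∧
  (∀ (k : Bool × Bool) (z : ℂ), HasDerivAt (c0 k) (a0 k false z • e0 k false (c0 k z) +
      a0 k true z • e0 k true (c0 k z)) z)

/-- AREA1. The area of an exponential function inside the unit disc grows linearly.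
Proof. For `α = 0` trivial.  Substitute `w = γ z` (or rotate): the region is contained in
`{z : |Im (γz)| ≤ |γ| t, Re (γ z) ≤ -log |α|}`, where the integrand is `|αγ|² e^{2 Re (γz)}`; in the coordinates
`x = Re (γz)`, `y = Im (γz)` (Jacobian `|γ|²`) the integral is at most `2|γ|t · |α|² ∫_{x ≤ -log|α|} e^{2x} dx = |γ| t`. -/
def S_AREA1 : Prop := ∀ α γ : ℂ, γ ≠ 0 → ∃ C : ℝ, 0 ≤ C ∧ ∀ t : ℝ, 0 ≤ t →
  ∫ z in Metric.ball (0 : ℂ) t ∩ {z | ‖α * exp (γ * z)‖ ≤ 1}, ‖α * γ * exp (γ * z)‖ ^ 2 ≤ C * t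

/-- AREAC. Linear growth of the area of a curve all of whose coordinates are exponentials.
Proof. `‖η i u‖ ≤ M` for all `i` (finitely many) and `‖u‖ ≤ 1` (compactness).  For every `z` choose `i` with `‖c i z‖ ≤ 1`
(`X.cover` and injectivity of `φ i`), then `|pull η g z| = |η i (c i z) (c' z) (I • c' z)| ≤ M ‖c'(z)‖² ≤ M ∑_{j<4} |α_j γ_j e^{γ_j z}|²` and all
`|α_j e^{γ_j z}| ≤ 1`.  Hence `|pull η g z| ≤ M ∑_i ∑_j 1_{|α_ij e^{γ_ij z}| ≤ 1} |α_ij γ_ij e^{γ_ij z}|²` for all `z`, and AREA1 for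
each of the finitely many terms.  (`pull` is given by C1; it is continuous.) -/
def S_AREAC : Prop := ∀ (X : CMfd E4) (g : ℂ → X.Pt) (c : X.ι → ℂ → E4),
  (∀ i z, X.φ i (c i z) = g z) →
  (∀ i, ∃ α γ : Fin 4 → ℂ, (∀ j, γ j ≠ 0) ∧ ∀ z, c i z =
      (((α 0 * exp (γ 0 * z), α 1 * exp (γ 1 * z)), α 2 * exp (γ 2 * z)), α 3 * exp (γ 3 * z))) →
  ∀ η : Form X, ∃ C : ℝ, 0 ≤ C ∧ ∀ t : ℝ, 0 ≤ t → ∫ z in Metric.ball (0 : ℂ) t, |pull η g z| ≤ C * t

/-- NEV. The functional `p ↦ ∫_0^r (∫_{|z| < t} p) dt / t` on continuous functions with area of linear growth.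
Proof. `t ↦ ∫_{|z|<t} p` is measurable (continuous), and bounded by `C t`, so `t⁻¹ * ∫_{|z|<t} p` is bounded and
measurable on `(0, r)`. -/
def S_NEV : Prop := ∀ (p : ℂ → ℝ) (C : ℝ), Continuous p →
  (∀ t : ℝ, 0 ≤ t → ∫ z in Metric.ball (0 : ℂ) t, |p z| ≤ C * t) → ∀ r : ℝ, 0 ≤ r →
  IntegrableOn (fun t : ℝ => t⁻¹ * ∫ z in Metric.ball (0 : ℂ) t, p z) (Ioo 0 r) ∧
  |∫ t in Ioo 0 r, t⁻¹ * ∫ z in Metric.ball (0 : ℂ) t, p z| ≤ C * r

/-- LOW. Lower bound for the mass near the vertex fibre.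
Proof. Compactness of `{‖s‖ ≤ 1}` gives `ε > 0` with `φ i₀ (((x,y),s),m) ∈ U` whenever `‖x‖, ‖y‖, ‖m‖ ≤ ε`, `‖s‖ ≤ 1` (`φ i₀` is continuous, generalized tube lemma).
For `z = x + iy` with `1 ≤ y ≤ 2` and `x ≤ -R(ε)` the curve is in this set: `|e^z| = e^x`, `|e^{(1+i)z}| = e^{x-y}`,
`|(1+i) e^{iz}| = √2 e^{-y} < 1`, `|e^{(1-i)z}|/√2 = e^{x+y}/√2`.  There `pull (χ ω) g z = χ(g z) pull ω g z ≥ ω i₀ (c z) (c' z) (I • c' z) ≥ κ ‖c' z‖² ≥ κ |c_3'(z)|² ≥ κ 2 e^{-4}`, where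
`κ > 0` is the minimum of `ω i₀ u v (I • v)` over `‖u‖ ≤ 1`, `‖v‖ = 1` (it does not depend on `U`).  The region has area at least `t - R - 3` in the ball of radius `t`.
Hence `∫_{|z|<t} pull (χ ω) g ≥ c₁ (t - R - 3)` for all `t ≥ 0` (the left side is nonnegative), and `nev ≥ ∫_{r/2}^{r} c₁ (1 - (R+3)/t) dt ≥ c₁ r / 4` for large
`r`.  Integrability from NEV and the hypothesis on the growth. -/
def S_LOW : Prop := ∀ (X : CMfd E4) (g : ℂ → X.Pt) (i₀ : X.ι) (ω : Form X), IsMetric ω →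
  (∀ z, X.φ i₀ (((exp z, exp ((1 + I) * z)), (1 + I) * exp (I * z)),
    (I * (1 + I))⁻¹ * exp ((1 - I) * z)) = g z) →
  (∀ η : Form X, Continuous (pull η g) ∧
    ∃ C : ℝ, 0 ≤ C ∧ ∀ t : ℝ, 0 ≤ t → ∫ z in Metric.ball (0 : ℂ) t, |pull η g z| ≤ C * t) →
  ∃ c : ℝ, 0 < c ∧ ∀ U : Set X.Pt, IsOpen U →
    (∀ s : ℂ, ‖s‖ ≤ 1 → X.φ i₀ (((0, 0), s), 0) ∈ U) →
    ∃ r₀ : ℝ, ∀ r : ℝ, r₀ ≤ r → ∀ χ : C(X.Pt, ℝ), (∀ x, 0 ≤ χ x) → (∀ x ∈ U, 1 ≤ χ x) →
      c * r ≤ nev (mulForm χ ω) g r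

/-- LEN. The boundary terms are negligible (length-area estimate).
Proof. `∫_0^1` is a constant.  `∫_1^r ∫_0^{2π} √p(te^{iθ}) dθ dt ≤ (∫_1^r ∫_0^{2π} p t dθ dt)^{1/2} (∫_1^r ∫_0^{2π} t⁻¹ dθ dt)^{1/2} ≤
(C r)^{1/2} (2π log r)^{1/2}` by Cauchy–Schwarz and polar coordinates, which is `o(r)`. -/
def S_LEN : Prop := ∀ (p : ℂ → ℝ) (C : ℝ), Continuous p → (∀ z, 0 ≤ p z) →
  (∀ t : ℝ, 0 ≤ t → ∫ z in Metric.ball (0 : ℂ) t, p z ≤ C * t) →
  Tendsto (fun r : ℝ => r⁻¹ * ∫ t in Ioo 0 r, t⁻¹ *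
    ∫ θ in Ioo 0 (2 * Real.pi), t * √(p (t * exp (θ * I)))) atTop (𝓝 0)

/-- SEQ. Weak compactness.
Proof. Let `K` be the closed unit ball of `E` (compact) and `Z = ι → C(K, E →L[ℝ] E →L[ℝ] ℝ)`, a separable normed space (`ι` finite);
`ρ : Form X → Z` the restriction, a linear map.  By the hypothesis `L n` factors through the range `V` of `ρ` and defines an element of
norm `≤ C` of the dual of `V`, which is separable.  Sequential Banach–Alaoglu (`WeakDual.isSeqCompact_closedBall`). -/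
def S_SEQ : Prop := ∀ (E : Type) [NormedAddCommGroup E] [NormedSpace ℂ E] [FiniteDimensional ℂ E]
  (X : CMfd E) (L : ℕ → Form X →ₗ[ℝ] ℝ) (C : ℝ),
  (∀ (n : ℕ) (η : Form X) (M : ℝ), (∀ i u, ‖u‖ ≤ 1 → ‖η.1 i u‖ ≤ M) → |L n η| ≤ C * M) →
  ∃ (f : ℕ → ℕ) (S : Form X → ℝ), StrictMono f ∧
    ∀ η, Tendsto (fun n => L (f n) η) atTop (𝓝 (S η))

/-- TOP. The topology of a manifold given by an atlas.
Proof. `φ i` is continuous for the coinduced topology; it is open: the preimage of `φ i '' U` under `φ j` is `dom j i ∩ (tr j i)⁻¹ U`, open since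
`tr j i` is continuous on the open set `dom j i`.  `Pt` is the union of the finitely many compact sets `φ i '' closedBall 0 1` and
of the finitely many open second countable sets `range (φ i)`. -/
def S_TOP : Prop := ∀ (E : Type) [NormedAddCommGroup E] [NormedSpace ℂ E] [FiniteDimensional ℂ E]
  (X : CMfd E), (∀ i, IsOpenEmbedding (X.φ i)) ∧ CompactSpace X.Pt ∧
    SecondCountableTopology X.Pt

/-- RIESZ. The trace measure exists.
Proof. `χ ↦ S (χ ω)` is a positive linear functional on `C(Pt, ℝ)`, `Pt` compact Hausdorff (TOP): Riesz–Markov–Kakutani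
(`RealRMK.rieszMeasure`, `RealRMK.integral_rieszMeasure`). -/
def S_RIESZ : Prop := ∀ (E : Type) [NormedAddCommGroup E] [NormedSpace ℂ E] [FiniteDimensional ℂ E]
  (X : CMfd E) (ω : Form X) (S : Form X → ℝ),
  (∀ η θ, S (η + θ) = S η + S θ) → (∀ (c : ℝ) η, S (c • η) = c * S η) →
  (∀ χ : C(X.Pt, ℝ), (∀ x, 0 ≤ χ x) → 0 ≤ S (mulForm χ ω)) →
  ∃ σ : Measure X.Pt, IsTrace ω S σ

/-- MASS. A lower bound for the mass of a closed set.
Proof. Let `U ⊇ D` be open.  `Pt` is compact, Hausdorff and second countable (TOP), hence normal and metrizable; choose an open `V` with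
`D ⊆ V ⊆ closure V ⊆ U` and `χ` continuous with values in `[0,1]`, `χ = 1` on `closure V`, `χ = 0` outside `U`.  Then `c ≤ S (χ ω) = ∫ χ dσ ≤ σ U`.
Outer regularity of the finite Borel measure `σ` on the metrizable space `Pt`. -/
def S_MASS : Prop := ∀ (E : Type) [NormedAddCommGroup E] [NormedSpace ℂ E] [FiniteDimensional ℂ E]
  (X : CMfd E) (ω : Form X) (S : Form X → ℝ) (σ : Measure X.Pt) (D : Set X.Pt) (c : ℝ),
  IsTrace ω S σ → IsClosed D →
  (∀ U : Set X.Pt, IsOpen U → D ⊆ U → ∀ χ : C(X.Pt, ℝ), (∀ x, 0 ≤ χ x) → (∀ x ∈ U, 1 ≤ χ x) →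
    c ≤ S (mulForm χ ω)) → ENNReal.ofReal c ≤ σ D

/-- METRIC. Every manifold has a Hermitian metric.
Proof. Take a real bilinear form `β` on `E` with `β v v = 0`, `β (I•v) (I•w) = β v w`, `β v (I • v) > 0` for `v ≠ 0` (from a Hermitian inner product on the
finite-dimensional space `E`, `β v w = - Im ⟨w, v⟩` or its negative).  Let `χ i : Pt → ℝ`, `χ i (φ i u) = max 0 (2 - ‖u‖)`, `χ i = 0` outside `range (φ i)`:
continuous because `φ i` is an open embedding (TOP) and `φ i '' closedBall 0 2` is compact, hence closed.  In the chart `j`: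
`ω j u v w = ∑_i χ i (φ j u) β (fderiv (tr j i) u v) (fderiv (tr j i) u w)` (terms with `u ∉ dom j i` are zero); continuous,
compatible (chain rule `X.fderiv_tr`), positive because for every point some `χ i > 0` (`X.cover`) and `X.fderiv_tr_inj`. -/
def S_METRIC : Prop := ∀ (E : Type) [NormedAddCommGroup E] [NormedSpace ℂ E]
  [FiniteDimensional ℂ E] (X : CMfd E), ∃ ω : Form X, IsMetric ω

/-- BND. Forms are bounded by multiples of the metric.
Proof. `κ > 0` the minimum of `ω i u v (I • v)` over all `i`, `‖u‖ ≤ 1`, `‖v‖ = 1` (compactness; if `E` is trivial everything is `0`).  For given `z` choose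
`i`, `u` with `‖u‖ ≤ 1` and `φ i u = g z`; the coordinate `c` of `g` in the chart `i` near `z` is analytic (`IsHolo` and transition
maps), `c z = u`; by C1 `|pull η g z| = |η i u v (I • v)| ≤ M ‖v‖²` and `pull ω g z = ω i u v (I • v) ≥ κ ‖v‖²`. -/
def S_BND : Prop := ∀ (E : Type) [NormedAddCommGroup E] [NormedSpace ℂ E] [FiniteDimensional ℂ E]
  (X : CMfd E) (ω : Form X), IsMetric ω → ∃ K : ℝ, 0 ≤ K ∧ ∀ g : ℂ → X.Pt, IsHolo X g →
    ∀ (η : Form X) (M : ℝ), (∀ i u, ‖u‖ ≤ 1 → ‖η.1 i u‖ ≤ M) → ∀ z, |pull η g z| ≤ K * M * pull ω g z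

end Pool.Agent.Q72.SM
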