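import Pool.Agent.Q72.SM.Main

/-!
# The notions of the statement, with forms as plain functions
-/

set_option autoImplicit false

namespace Pool.Agent.Q72.SM

open Set Filter Topology MeasureTheory Complex

section defs

variable {E : Type} [NormedAddCommGroup E] [NormedSpace ℂ E]

/-- The continuous real 2-forms on `X`: in every chart, at every point `u`, an alternating real
bilinear form `η i u`, depending continuously on all variables, compatible with the transition
maps. -/
structure CForm (X : CMfd E) where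
  /-- the value of the form at the point `φ i u` on the tangent vectors with coordinates `v, w` -/
  ev : X.ι → E → E → E → ℝ
  cont : ∀ i, Continuous fun p : E × E × E => ev i p.1 p.2.1 p.2.2
  add : ∀ i u v v' w, ev i u (v + v') w = ev i u v w + ev i u v' w
  smul : ∀ i u (c : ℝ) v w, ev i u ((c : ℂ) • v) w = c * ev i u v w
  alt : ∀ i u v w, ev i u v w = -ev i u w v
  compat : ∀ i j u, u ∈ X.dom i j → ∀ v w,
    ev j (X.tr i j u) (fderiv ℂ (X.tr i j) u v) (fderiv ℂ (X.tr i j) u w) = ev i u v w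

/-- The function `u` with `g^* η = u dx ∧ dy`. -/
noncomputable def cpull {X : CMfd E} (η : CForm X) (g : ℂ → X.Pt) (z : ℂ) : ℝ :=
  η.ev (X.ch (g z)) (X.co (g z)) (vel X g z) (I • vel X g z)

/-- `ω` is the fundamental form of a (continuous) Hermitian metric: a positive form of type
`(1,1)`. -/
def IsHermitian {X : CMfd E} (ω : CForm X) : Prop :=
  (∀ i u v w, ω.ev i u (I • v) (I • w) = ω.ev i u v w) ∧ ∀ i u v, v ≠ 0 → 0 < ω.ev i u v (I • v)

lemma continuous_φ (X : CMfd E) (i : X.ι) : Continuous (X.φ i) :=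
  continuous_iSup_rng continuous_coinduced_rng

lemma mul_cont {X : CMfd E} (χ : C(X.Pt, ℝ)) (η : CForm X) (i : X.ι) :
    Continuous fun p : E × E × E => χ (X.φ i p.1) * η.ev i p.1 p.2.1 p.2.2 :=
  ((χ.continuous.comp (continuous_φ X i)).comp continuous_fst).mul (η.cont i)

lemma mul_compat {X : CMfd E} (χ : C(X.Pt, ℝ)) (η : CForm X) (i j : X.ι) (u : E)
    (hu : u ∈ X.dom i j) (v w : E) : χ (X.φ j (X.tr i j u)) *
      η.ev j (X.tr i j u) (fderiv ℂ (X.tr i j) u v) (fderiv ℂ (X.tr i j) u w) =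
    χ (X.φ i u) * η.ev i u v w := by
  rw [X.φ_tr i j hu, η.compat i j u hu v w]

/-- the form `χ η` for a continuous function `χ` -/
noncomputable def cmul {X : CMfd E} (χ : C(X.Pt, ℝ)) (η : CForm X) : CForm X where
  ev i u v w := χ (X.φ i u) * η.ev i u v w
  cont := mul_cont χ η
  add i u v v' w := by rw [η.add, mul_add]
  smul i u c v w := by rw [η.smul]; ring
  alt i u v w := by rw [η.alt]; ring
  compat := mul_compat χ η

/-- The integral `∫_0^r (∫_{|z| < t} g^* η) dt / t`. -/
noncomputable def cnev {X : CMfd E} (η : CForm X) (g : ℂ → X.Pt) (r : ℝ) : ℝ :=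
  ∫ t in Ioo 0 r, t⁻¹ * ∫ z in Metric.ball (0 : ℂ) t, cpull η g z

/-- The length of the image of the circle of radius `t` under `g`. -/
noncomputable def clen {X : CMfd E} (ω : CForm X) (g : ℂ → X.Pt) (t : ℝ) : ℝ :=
  ∫ θ in Ioo 0 (2 * Real.pi), t * √(cpull ω g (t * exp (θ * I)))

/-- `S` is a Nevanlinna current of `g` with respect to the Hermitian metric `ω`: for some
`r_n → ∞` it is the weak limit of the currents
`η ↦ (∫_0^{r_n} (∫_{|z| < t} g^* η) dt / t) / (∫_0^{r_n} (∫_{|z| < t} g^* ω) dt / t)`, and the boundary terms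
`(∫_0^{r_n} length(g(∂D_t)) dt / t) / (∫_0^{r_n} (∫_{|z| < t} g^* ω) dt / t)` tend to zero. -/
def IsNevanlinnaCurrent {X : CMfd E} (ω : CForm X) (g : ℂ → X.Pt) (S : CForm X → ℝ) : Prop :=
  ∃ r : ℕ → ℝ, Tendsto r atTop atTop ∧
    Tendsto (fun n => (cnev ω g (r n))⁻¹ * ∫ t in Ioo 0 (r n), t⁻¹ * clen ω g t) atTop (𝓝 0) ∧
    ∀ η, Tendsto (fun n => (cnev ω g (r n))⁻¹ * cnev η g (r n)) atTop (𝓝 (S η))

/-- `σ` is the trace measure `S ∧ ω` of the current `S`. -/
def IsTraceMeasure {X : CMfd E} (ω : CForm X) (S : CForm X → ℝ) (σ : Measure X.Pt) : Prop :=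
  IsFiniteMeasure σ ∧ ∀ χ : C(X.Pt, ℝ), ∫ x, χ x ∂σ = S (cmul χ ω)

/-- The subbundle of `P(V)` consists of the tangent vectors `v` at `p = (x, ℓ)` which are mapped into
`ℓ` by the differential of the projection `P(V) → X`: in the chart `(i, a)` of `P(V)` and the chart
`i` of `X` this differential is `v ↦ v.1`. -/
def TangentLift (X : Dir E) : Prop :=
  ∀ (p : X.PPt) (v : E × ℂ), v ∈ (Proj X).V p ↔
    X.push ((Proj X).ch p).1 ((Proj X).co p).1 v.1 ∈ p.1.2

end defs

section transfer

variable {E : Type} [NormedAddCommGroup E] [NormedSpace ℂ E]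

/-- from continuous linear forms to plain functions -/
noncomputable def ofForm {X : CMfd E} (η : Form X) : CForm X where
  ev i u v w := η.1 i u v w
  cont i := (((η.2.1 i).comp continuous_fst).clm_apply (continuous_fst.comp continuous_snd)).clm_apply
    (continuous_snd.comp continuous_snd)
  add i u v v' w := by rw [map_add]; rfl
  smul i u c v w := by
    have : (c : ℂ) • v = c • v := rfl
    rw [this, map_smul]; rfl
  alt i u v w := by
    have h1 := η.2.2.1 i u (v + w)
    have h2 := η.2.2.1 i u v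
    have h3 := η.2.2.1 i u w
    simp only [map_add, _root_.add_apply] at h1
    rw [h2, h3] at h1
    linarith
  compat := η.2.2.2

lemma CForm.smul_right {X : CMfd E} (η : CForm X) (i : X.ι) (u : E) (c : ℝ) (v w : E) :
    η.ev i u v ((c : ℂ) • w) = c * η.ev i u v w := by
  rw [η.alt, η.smul, η.alt i u w v]; ring

lemma CForm.add_right {X : CMfd E} (η : CForm X) (i : X.ι) (u : E) (v w w' : E) :
    η.ev i u v (w + w') = η.ev i u v w + η.ev i u v w' := by
  rw [η.alt, η.add, η.alt i u w v, η.alt i u w' v]; ring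

variable [FiniteDimensional ℂ E]

instance finR : FiniteDimensional ℝ E := FiniteDimensional.complexToReal E

/-- the bilinear form -/
noncomputable def bil {X : CMfd E} (η : CForm X) (i : X.ι) (u : E) : E →L[ℝ] E →L[ℝ] ℝ :=
  LinearMap.toContinuousLinearMap
    ((LinearMap.toContinuousLinearMap (𝕜 := ℝ) (E := E) (F' := ℝ)).toLinearMap ∘ₗ
      (LinearMap.mk₂ ℝ (η.ev i u) (η.add i u)
        (fun c v w => by
          have : (c : ℂ) • v = c • v := rfl
          rw [← this, η.smul]; rfl)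
        (fun v w w' => η.add_right i u v w w')
        (fun c v w => by
          have : (c : ℂ) • w = c • w := rfl
          rw [← this, η.smul_right]; rfl)))

lemma bil_apply {X : CMfd E} (η : CForm X) (i : X.ι) (u v w : E) :
    bil η i u v w = η.ev i u v w := rfl

/-- from plain functions to continuous linear forms -/
noncomputable def toForm {X : CMfd E} (η : CForm X) : Form X :=
  ⟨bil η, by
    refine ⟨fun i => ?_, fun i u v => ?_, fun i j u hu v w => ?_⟩
    · rw [continuous_clm_apply]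
      intro v
      rw [continuous_clm_apply]
      intro w
      have h : Continuous fun x : E => ((x, (v, w)) : E × E × E) :=
        continuous_id.prodMk continuous_const
      exact (η.cont i).comp h
    · rw [bil_apply]
      have := η.alt i u v v
      linarith
    · exact η.compat i j u hu v w⟩

lemma toForm_ofForm {X : CMfd E} (η : Form X) : toForm (ofForm η) = η := rfl

lemma ofForm_toForm {X : CMfd E} (η : CForm X) : ofForm (toForm η) = η := rfl

lemma pull_toForm {X : CMfd E} (η : CForm X) (g : ℂ → X.Pt) : pull (toForm η) g = cpull η g := rfl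

lemma nev_toForm {X : CMfd E} (η : CForm X) (g : ℂ → X.Pt) : nev (toForm η) g = cnev η g := rfl

lemma nev_ofForm {X : CMfd E} (η : Form X) (g : ℂ → X.Pt) : cnev (ofForm η) g = nev η g := rfl

lemma len_toForm {X : CMfd E} (η : CForm X) (g : ℂ → X.Pt) : len (toForm η) g = clen η g := rfl

lemma mul_toForm {X : CMfd E} (χ : C(X.Pt, ℝ)) (η : CForm X) :
    mulForm χ (toForm η) = toForm (cmul χ η) := rfl

lemma mul_ofForm {X : CMfd E} (χ : C(X.Pt, ℝ)) (η : CForm X) :
    ofForm (mulForm χ (toForm η)) = cmul χ η := rfl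

lemma isMetric_toForm {X : CMfd E} (ω : CForm X) : IsMetric (toForm ω) ↔ IsHermitian ω := Iff.rfl

lemma isHermitian_ofForm {X : CMfd E} (ω : Form X) : IsHermitian (ofForm ω) ↔ IsMetric ω := Iff.rfl

lemma nevanlinna_of {X : CMfd E} (ω : CForm X) (g : ℂ → X.Pt) (S : CForm X → ℝ)
    (h : IsNevanlinnaCurrent ω g S) : IsNevanlinna (toForm ω) g (fun η => S (ofForm η)) := by
  obtain ⟨r, h1, h2, h3⟩ := h
  exact ⟨r, h1, h2, fun η => h3 (ofForm η)⟩

lemma nevanlinna_to {X : CMfd E} (ω : CForm X) (g : ℂ → X.Pt) (S : Form X → ℝ)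
    (h : IsNevanlinna (toForm ω) g S) : IsNevanlinnaCurrent ω g (fun η => S (toForm η)) := by
  obtain ⟨r, h1, h2, h3⟩ := h
  exact ⟨r, h1, h2, fun η => h3 (toForm η)⟩

end transfer

theorem main' : ∃ (f1 : ℂ → X1.Pt) (f2 : ℂ → X2.Pt), IsLift X0 f0 f1 ∧ IsLift X1 f1 f2 ∧
    (∃ ω : CForm X2.toCMfd, IsHermitian ω) ∧ ∀ ω : CForm X2.toCMfd, IsHermitian ω →
      (∃ S, IsNevanlinnaCurrent ω f2 S) ∧ ∀ S, IsNevanlinnaCurrent ω f2 S →
        S ω = 1 ∧ (∃ σ, IsTraceMeasure ω S σ) ∧ ∀ σ, IsTraceMeasure ω S σ → 0 < σ D2 := by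
  obtain ⟨f1, f2, h1, h2, ⟨ω0, hω0⟩, h3⟩ := main
  refine ⟨f1, f2, h1, h2, ⟨ofForm ω0, hω0⟩, fun ω hω => ?_⟩
  obtain ⟨⟨S, hS⟩, h4⟩ := h3 (toForm ω) hω
  refine ⟨⟨_, nevanlinna_to ω f2 S hS⟩, fun S hS => ?_⟩
  obtain ⟨h5, h6, h7⟩ := h4 _ (nevanlinna_of ω f2 S hS)
  exact ⟨h5, h6, h7⟩

theorem tangentLift {E : Type} [NormedAddCommGroup E] [NormedSpace ℂ E] (X : Dir E) :
    TangentLift X := fun p v => proj_V X p v

end Pool.Agent.Q72.SM
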