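import Pool.Agent.Q79.SM.P12
import Pool.Agent.Q79.SM.P34
import Pool.Agent.Q72.SM.P56
import Pool.Agent.Q79.SM.B1
import Pool.Agent.Q79.SM.B2
import Pool.Agent.Q79.SM.C1
import Pool.Agent.Q79.SM.Lift
import Pool.Agent.Q79.SM.Exp
import Pool.Agent.Q79.SM.Tra
import Pool.Agent.Q79.SM.AreaC
import Pool.Agent.Q79.SM.Bnd
import Pool.Agent.Q79.SM.Len
import Pool.Agent.Q79.SM.Low
import Pool.Agent.Q79.SM.Metric
import Pool.Agent.Q79.SM.Seq
import Pool.Agent.Q72.SM.Nev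
import Pool.Agent.Q72.SM.Area1

/-! The lemmas of project SM (proofs by helper79, `S_NEV` and `S_AREA1` by helper72). -/

set_option autoImplicit false
namespace Pool.Agent.Q72.SM
theorem p1 : S_P1 := Q79.SM.p1
theorem p2 : S_P2 := Q79.SM.p2
theorem p3 : S_P3 := Q79.SM.p3 p1
theorem p4 : S_P4 := Q79.SM.p4
theorem p5 : S_P5 := Q79.SM56.p5 p2 p3 p4
theorem p6 : S_P6 := Q79.SM56.p6 p1 p4
theorem b1 : S_B1 := Q79.SM.b1
theorem b2 : S_B2 := Q79.SM.b2
theorem c1 : S_C1 := Q79.SM.c1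
theorem lift : S_LIFT := Q79.SM.lift c1
theorem vertt : S_VERT := Q79.SM.vert
theorem expt : S_EXP := Q79.SM.exp_all
theorem top : S_TOP := Q79.SM.top
theorem riesz : S_RIESZ := Q79.SM.riesz top
theorem mass : S_MASS := Q79.SM.mass top
theorem areac : S_AREAC := Q79.SM.areac c1 area1
theorem low : S_LOW := Q79.SM.low c1 nevt
theorem lent : S_LEN := Q79.SM.len
theorem seq : S_SEQ := Q79.SM.seq
theorem metric : S_METRIC := Q79.SM.metric top
theorem bnd : S_BND := Q79.SM.bnd c1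
end Pool.Agent.Q72.SM
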