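import Pool.Agent.Q72.SM.Tmp

/-!
# The Demailly–Semple tower of a directed manifold, and `ℙ¹ × ℙ¹`
-/

set_option autoImplicit false

namespace Pool.Agent.Q72.SM

open Set Filter Topology MeasureTheory

section

variable {E : Type} [NormedAddCommGroup E] [NormedSpace ℂ E] (X : Dir E)

lemma pdom_eq (k l : X.ι × Bool) : {w | X.pφ k w ∈ range (X.pφ l)} = X.pdom k l := by
  ext w
  constructor
  · rintro ⟨w', h⟩
    exact (p3 E X).2 k l w w' h
  · intro h
    exact ⟨X.ptr k l w, (p3 E X).1 k l w h⟩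

lemma invFun_eq (k l : X.ι × Bool) {w : E × ℂ} (h : w ∈ X.pdom k l) :
    Function.invFun (X.pφ l) (X.pφ k w) = X.ptr k l w := by
  rw [← (p3 E X).1 k l w h]
  exact Function.leftInverse_invFun ((p2 E X).1 l) _

/-- the underlying manifold of the projectivization `P(V)` -/
noncomputable def projMfd : CMfd (E × ℂ) where
  Pt := X.PPt
  ι := X.ι × Bool
  φ := X.pφ
  finite := by
    have := X.finite
    infer_instance
  inj := (p2 E X).1
  cover := (p2 E X).2
  isOpen_overlap := fun k l => by
    rw [pdom_eq]; exact (p4 E X).1 k l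
  analytic := fun k l => by
    rw [pdom_eq]
    intro w hw
    have h1 := (p4 E X).2 k l w hw
    refine h1.congr ?_
    filter_upwards [((p4 E X).1 k l).mem_nhds hw] with z hz
    exact (invFun_eq X k l hz).symm
  t2 := p5 E X

lemma projMfd_dom (k l : X.ι × Bool) : (projMfd X).dom k l = X.pdom k l := pdom_eq X k l

lemma projMfd_tr (k l : X.ι × Bool) {w : E × ℂ} (h : w ∈ X.pdom k l) :
    (projMfd X).tr k l w = X.ptr k l w := invFun_eq X k l h

lemma projMfd_fderiv (k l : X.ι × Bool) {w : E × ℂ} (h : w ∈ X.pdom k l) :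
    fderiv ℂ ((projMfd X).tr k l) w = fderiv ℂ (X.ptr k l) w := by
  apply Filter.EventuallyEq.fderiv_eq
  filter_upwards [((p4 E X).1 k l).mem_nhds h] with z hz
  exact projMfd_tr X k l hz

/-- The projectivization `P(V)` of the directed manifold `(X, V)`, with its subbundle of rank two:
the tangent vectors at `(x, ℓ)` which are mapped into `ℓ` by the differential of the projection. -/
noncomputable def Proj : Dir (E × ℂ) where
  toCMfd := projMfd X
  e := X.pe
  e_analytic := (p1 E X).2.1
  indep := (p1 E X).2.2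
  A := X.pA
  A_analytic := fun k l a b => by
    have := (p6 E X).1 k l a b
    rw [projMfd_dom]
    exact this
  frame := fun k l w hw a => by
    rw [projMfd_dom] at hw
    rw [projMfd_fderiv X k l hw, projMfd_tr X k l hw]
    exact (p6 E X).2 k l w hw a

/-- The subbundle of rank two of `P(V)` consists of the tangent vectors `v` at `p = (x, ℓ)` which are
mapped into `ℓ` by the differential of the projection `P(V) → X`; in the chart `(i, a)` of `P(V)` and
the chart `i` of `X` this differential is `v ↦ v.1`. -/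
theorem proj_V (p : (Proj X).Pt) (v : E × ℂ) : v ∈ (Proj X).V p ↔
    X.push ((Proj X).ch p).1 ((Proj X).co p).1 v.1 ∈ (show X.PPt from p).1.2 := by
  set k := (Proj X).ch p with hk
  set w := (Proj X).co p with hw
  have hp : X.pφ k w = p := (Proj X).φ_co p
  have hl : (show X.PPt from p).1.2 = Submodule.span ℂ {X.push k.1 w.1 (X.vec k.1 k.2 w)} := by
    rw [← hp]; rfl
  rw [hl]
  have hV : (Proj X).V p = Submodule.span ℂ (range fun a => X.pe k a w) := rfl
  rw [hV, Submodule.mem_span_singleton]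
  constructor
  · intro h
    have key : ∀ x ∈ Submodule.span ℂ (range fun a => X.pe k a w),
        ∃ a : ℂ, a • X.push k.1 w.1 (X.vec k.1 k.2 w) = X.push k.1 w.1 x.1 := by
      intro x hx
      induction hx using Submodule.span_induction with
      | mem x h =>
        obtain ⟨a, rfl⟩ := h
        cases a
        · exact ⟨1, by simp [Dir.pe]⟩
        · exact ⟨0, by simp [Dir.pe]⟩
      | zero => exact ⟨0, by simp⟩
      | add x y _ _ hx hy =>
        obtain ⟨a, ha⟩ := hx
        obtain ⟨b, hb⟩ := hy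
        exact ⟨a + b, by rw [add_smul, ha, hb, Prod.fst_add, map_add]⟩
      | smul c x _ hx =>
        obtain ⟨a, ha⟩ := hx
        exact ⟨c * a, by rw [mul_smul, ha, Prod.smul_fst, map_smul]⟩
    exact key v h
  · rintro ⟨a, ha⟩
    have h1 : v.1 = a • X.vec k.1 k.2 w := by
      apply X.push_inj k.1 w.1
      rw [map_smul, ha]
    have h2 : v = a • X.pe k false w + v.2 • X.pe k true w := by
      ext
      · simp [Dir.pe, h1]
      · simp [Dir.pe]
    rw [h2]
    exact Submodule.add_mem _ (Submodule.smul_mem _ _ (Submodule.subset_span ⟨false, rfl⟩))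
      (Submodule.smul_mem _ _ (Submodule.subset_span ⟨true, rfl⟩))

end

lemma invFun_eq0 (k l : Bool × Bool) {u : ℂ × ℂ} (h : u ∈ dom0 k l) :
    Function.invFun (φ0 l) (φ0 k u) = tr0 k l u := by
  rw [← b1.2.2.2.1 k l u h]
  exact Function.leftInverse_invFun (b1.1 l) _

/-- the surface `ℙ¹ × ℙ¹` -/
noncomputable def P11 : CMfd (ℂ × ℂ) where
  Pt := OnePoint ℂ × OnePoint ℂ
  ι := Bool × Bool
  φ := φ0
  finite := inferInstance
  inj := b1.1
  cover := b1.2.1
  isOpen_overlap := fun k l => by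
    rw [b1.2.2.1]; exact b1.2.2.2.2.1 k l
  analytic := fun k l => by
    rw [b1.2.2.1]
    intro u hu
    refine (b1.2.2.2.2.2.1 k l u hu).congr ?_
    filter_upwards [(b1.2.2.2.2.1 k l).mem_nhds hu] with z hz
    exact (invFun_eq0 k l hz).symm
  t2 := b1.2.2.2.2.2.2

lemma P11_dom (k l : Bool × Bool) : P11.dom k l = dom0 k l := b1.2.2.1 k l

lemma P11_tr (k l : Bool × Bool) {u : ℂ × ℂ} (h : u ∈ dom0 k l) : P11.tr k l u = tr0 k l u :=
  invFun_eq0 k l h

lemma P11_fderiv (k l : Bool × Bool) {u : ℂ × ℂ} (h : u ∈ dom0 k l) :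
    fderiv ℂ (P11.tr k l) u = fderiv ℂ (tr0 k l) u := by
  apply Filter.EventuallyEq.fderiv_eq
  filter_upwards [(b1.2.2.2.2.1 k l).mem_nhds h] with z hz
  exact P11_tr k l hz

/-- The directed manifold `(ℙ¹ × ℙ¹, T)`: the frame is the coordinate frame of the tangent bundle. -/
noncomputable def X0 : Dir (ℂ × ℂ) where
  toCMfd := P11
  e := e0
  e_analytic := b2.1
  indep := b2.2.1
  A := A0
  A_analytic := fun k l a b => by
    have h := b2.2.2.1 k l a b
    have h2 : P11.dom k l = dom0 k l := P11_dom k l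
    exact h2 ▸ h
  frame := fun k l u hu a => by
    have h2 : P11.dom k l = dom0 k l := P11_dom k l
    have hu' : u ∈ dom0 k l := h2 ▸ hu
    have h3 := b2.2.2.2 k l u hu' a
    have h4 : fderiv ℂ (P11.tr k l) u = fderiv ℂ (tr0 k l) u := P11_fderiv k l hu'
    have h5 : P11.tr k l u = tr0 k l u := P11_tr k l hu'
    calc fderiv ℂ (P11.tr k l) u (e0 k a u) = fderiv ℂ (tr0 k l) u (e0 k a u) := by rw [h4]
      _ = _ := h3
      _ = _ := by rw [← h5]

/-- the subbundle of `X0` is the whole tangent bundle -/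
theorem X0_V (x : X0.Pt) : X0.V x = ⊤ := by
  rw [eq_top_iff]
  rintro ⟨a, b⟩ -
  have h : ((a, b) : ℂ × ℂ) = a • X0.e (X0.ch x) false (X0.co x) + b • X0.e (X0.ch x) true (X0.co x) := by
    change _ = a • ((1 : ℂ), (0 : ℂ)) + b • ((0 : ℂ), (1 : ℂ))
    simp
  rw [h]
  exact Submodule.add_mem _ (Submodule.smul_mem _ _ (Submodule.subset_span ⟨false, rfl⟩))
    (Submodule.smul_mem _ _ (Submodule.subset_span ⟨true, rfl⟩))

/-- the first level of the Demailly–Semple tower of `ℙ¹ × ℙ¹` -/
noncomputable def X1 : Dir ((ℂ × ℂ) × ℂ) := Proj X0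

/-- the second level of the Demailly–Semple tower of `ℙ¹ × ℙ¹` -/
noncomputable def X2 : Dir (((ℂ × ℂ) × ℂ) × ℂ) := Proj X1

/-- the entire curve `f(z) = (e^z, e^{(1+i)z})` in `ℙ¹ × ℙ¹` -/
noncomputable def f0 (z : ℂ) : X0.Pt :=
  (((Complex.exp z : ℂ) : OnePoint ℂ), ((Complex.exp ((1 + Complex.I) * z) : ℂ) : OnePoint ℂ))

end Pool.Agent.Q72.SM
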